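import Pool.Agent.H80.KS6.Plk

/-!
# The end: no planar windows of small length exponent
-/

set_option autoImplicit false

namespace Pool.S6K

open Finset Real
open Pool.Agent.H49.Ent Pool.Agent.H32.Dense Pool.STK Pool.KA Pool.KSAT Pool.K2S Pool.KA.TRC

namespace Pend

variable {J : ℕ}

/-- The covector of the label, cut off. -/
noncomputable def nv (y : PlZ 3) (j : Fin 3) : ℝ := max (-4) (min 4 (y.1 2 j))

theorem nv_le (y : PlZ 3) (j : Fin 3) : |nv y j| ≤ 4 := by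
  unfold nv
  rw [abs_le]
  exact ⟨le_max_left _ _, max_le (by norm_num) (min_le_left _ _)⟩

theorem nv_eq {y : PlZ 3} (h : ∀ i j, |y.1 i j| ≤ 4) (j : Fin 3) : nv y j = y.1 2 j := by
  have := abs_le.1 (h 2 j)
  unfold nv
  rw [min_eq_right (by linarith only [this, this.2]), max_eq_right (by linarith [this.1])]

/-- The frame. -/
noncomputable def MA (σ : Equiv.Perm (Fin 3)) (y : PlZ 3) (i j : Fin 3) : ℝ :=
  if i = 0 then (if j = σ 2 then 1 / 4 else if j = σ 0 then nv y 0 / 4 * 1 else nv y 1 / 4)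
  else if i = 1 then (if j = σ 0 then 1 else 0) else (if j = σ 1 then 1 else 0)

/-- Its inverse. -/
noncomputable def MB (σ : Equiv.Perm (Fin 3)) (y : PlZ 3) (i j : Fin 3) : ℝ :=
  if i = σ 2 then (if j = 0 then 4 else if j = 1 then -nv y 0 else -nv y 1)
  else if i = σ 0 then (if j = 1 then 1 else 0) else (if j = 2 then 1 else 0)

theorem MA_le (σ : Equiv.Perm (Fin 3)) (y : PlZ 3) (i j : Fin 3) : |MA σ y i j| ≤ 1 := by
  have h0 := abs_le.1 (nv_le y 0)
  have h1 := abs_le.1 (nv_le y 1)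
  unfold MA
  split_ifs <;> rw [abs_le] <;> constructor <;> linarith [h0.1, h0.2, h1.1, h1.2]

theorem MB_le (σ : Equiv.Perm (Fin 3)) (y : PlZ 3) (i j : Fin 3) : |MB σ y i j| ≤ 4 := by
  have h0 := abs_le.1 (nv_le y 0)
  have h1 := abs_le.1 (nv_le y 1)
  unfold MB
  split_ifs <;> rw [abs_le] <;> constructor <;> linarith [h0.1, h0.2, h1.1, h1.2]

theorem sum_perm (σ : Equiv.Perm (Fin 3)) (f : Fin 3 → ℝ) :
    ∑ j, f j = f (σ 0) + f (σ 1) + f (σ 2) := by
  rw [← Equiv.sum_comp σ f, Fin.sum_univ_three]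

theorem MB_MA (σ : Equiv.Perm (Fin 3)) (y : PlZ 3) (i k : Fin 3) :
    ∑ j, MB σ y i j * MA σ y j k = if i = k then 1 else 0 := by
  obtain ⟨i, rfl⟩ := σ.surjective i
  obtain ⟨k, rfl⟩ := σ.surjective k
  rw [Fin.sum_univ_three]
  unfold MB MA
  simp only [σ.injective.eq_iff]
  fin_cases i <;> fin_cases k <;> simp
  · ring
  · ring

theorem tri_two (σ : Equiv.Perm (Fin 3)) (M : Fin 3 → Fin 3 → ℝ) (x b : Fin 3 → ℝ) :
    tri σ M x b 2 = (x (σ 2) - b 2) + (M 2 0 * (x (σ 0) - b 0) + M 2 1 * (x (σ 1) - b 1)) := by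
  unfold tri
  rw [Fin.sum_univ_three]
  simp

end Pend

open Pend

/-- **The end.** -/
theorem pend_thm (h2 : KP 2) : ∀ a R : ℝ, 1 ≤ a → 0 < R → ∃ x : ℝ, 0 < x ∧ x ≤ 1 ∧
    ∀ N : ℕ, 1 ≤ N → ∀ (i₀ : Fin 3) (p v : ℕ), p ≤ N → (1 - x) * N ≤ (p : ℝ) →
    (v : ℝ) ≤ x * N → Claim (m := 3) a R (fun J F A => ¬ Pnr F i₀ (J / N) p v A) := by
  classical
  intro a R ha hR
  obtain ⟨x, hx, τ₀, hτ₀, J₁, hnpl⟩ := npl 1 2 Pool.KAL.KP1.kp_one h2 a R ha hR 4
  obtain ⟨x', hx'⟩ : ∃ x', x' = min (x / 2) (1 / 2) := ⟨_, rfl⟩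
  have hx'0 : 0 < x' := by rw [hx']; exact lt_min (by linarith only [hx]) (by norm_num)
  have hx'1 : x' ≤ 1 / 2 := by rw [hx']; exact min_le_right _ _
  have hx'x : x' ≤ x / 2 := by rw [hx']; exact min_le_left _ _
  refine ⟨x', hx'0, by linarith only [hx'0, hx'1], fun N hN i₀ p v hp hp2 hv => ?_⟩
  have hNpos : (0 : ℝ) < N := by exact_mod_cast hN
  have hN0 : 0 < N := hN
  obtain ⟨τ, hτ⟩ : ∃ τ, τ = τ₀ / (7 * (1 + a)) := ⟨_, rfl⟩
  have hτ0 : 0 < τ := by
    rw [hτ]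
    positivity
  obtain ⟨J₂, hJ₂⟩ := exists_nat_gt (2 * N / x + cc 1 / τ₀)
  refine Claim.of hτ0 (max J₂ (max J₁ 1)) fun J hJ F A hS hPn => ?_
  have hcc : 0 ≤ cc 1 := by
    unfold cc
    exact mul_nonneg (by positivity) (Real.log_nonneg (by norm_num))
  have hJr : 2 * N / x + cc 1 / τ₀ < J :=
    hJ₂.trans_le (by exact_mod_cast (le_max_left _ _).trans hJ)
  have q4 : 0 < 2 * N / x := by positivity
  have q6 : 0 ≤ cc 1 / τ₀ := div_nonneg hcc hτ₀.le
  have hJ0 : (0 : ℝ) < J := by linarith only [hJr, q4, q6]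
  have r4 : 2 * N ≤ x * J := by
    have : 2 * N / x < J := by linarith only [hJr, q6]
    rw [div_lt_iff₀ hx] at this
    linarith only [this]
  have r6 : cc 1 ≤ τ₀ * J := by
    have : cc 1 / τ₀ < J := by linarith only [hJr, q4]
    rw [div_lt_iff₀ hτ₀] at this
    linarith only [this]
  have hp0 := F.isLaw
  -- scales
  obtain ⟨u, hu⟩ : ∃ u, u = J / N := ⟨_, rfl⟩
  have hu1 : (N : ℝ) * u ≤ J := by rw [hu]; exact_mod_cast Nat.mul_div_le J N
  have hu2 : (J : ℝ) < N * (u + 1) := by rw [hu]; exact_mod_cast Nat.lt_mul_div_succ J hN0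
  have hu0 : (0 : ℝ) ≤ u := Nat.cast_nonneg u
  rw [← hu] at hPn
  obtain ⟨σ, -, k₁, -, -, φ, f1, f2, f3⟩ := hPn
  obtain ⟨P, hP⟩ : ∃ P, P = p * u := ⟨_, rfl⟩
  obtain ⟨w, hw⟩ : ∃ w, w = v * u := ⟨_, rfl⟩
  rw [← hP, ← hw] at f2
  rw [← hw] at f3
  have hPr : (P : ℝ) = p * u := by rw [hP]; push_cast; ring
  have hwr : (w : ℝ) = v * u := by rw [hw]; push_cast; ring
  have hPJ : P ≤ J := by
    have : (P : ℝ) ≤ J := by
      rw [hPr]
      have : (p : ℝ) * u ≤ N * u := mul_le_mul_of_nonneg_right (by exact_mod_cast hp) hu0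
      linarith only [hu1, this]
    exact_mod_cast this
  have hwx : (w : ℝ) ≤ x' * J := by
    rw [hwr]
    calc (v : ℝ) * u ≤ x' * N * u := mul_le_mul_of_nonneg_right hv hu0
      _ = x' * (N * u) := by ring
      _ ≤ _ := mul_le_mul_of_nonneg_left hu1 hx'0.le
  have hwJ : w ≤ J := by
    have : (w : ℝ) ≤ J := by
      have : x' * J ≤ 1 / 2 * J := mul_le_mul_of_nonneg_right hx'1 hJ0.le
      linarith only [hJr, q4, q6, hwx, this]
    exact_mod_cast this
  have hl1 : (1 - x') * (J - N) ≤ P := by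
    rw [hPr]
    have h1 : (1 - x') * N * u ≤ p * u := mul_le_mul_of_nonneg_right hp2 hu0
    have h2 : (1 - x') * (J - N) ≤ (1 - x') * (N * u) :=
      mul_le_mul_of_nonneg_left (by linarith only [hu2]) (by linarith only [hx'0, hx'1])
    linarith only [h1, h2]
  have hl3 : (1 - x) * J ≤ P := by
    refine le_trans ?_ hl1
    have h1 : x' * J ≤ x / 2 * J := mul_le_mul_of_nonneg_right hx'x hJ0.le
    have h2 : 0 ≤ x' * N := by positivity
    nlinarith only [hv, r4, h1]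
  -- the family on `A`
  obtain ⟨hlaw, -, hMx, -⟩ := max_res F ha hτ0.le hτ0.le hS.1 hS.2.1 hS.2.2.1 A hS.2.2.2
  have hMx3 : (F.res A True hlaw).Mx a R τ₀ := by
    have e1 : (1 + a) * (5 * τ + τ) ≤ τ₀ := by
      rw [hτ]
      have : (1 + a) * (5 * (τ₀ / (7 * (1 + a))) + τ₀ / (7 * (1 + a))) = 6 / 7 * τ₀ := by
        field_simp
        ring
      rw [this]
      linarith only [hτ₀]
    refine ⟨?_, ?_⟩
    · have := hMx.1
      unfold Fam.Tm at this ⊢
      have h3 : (1 + a) * (5 * τ + τ) * J ≤ τ₀ * J := mul_le_mul_of_nonneg_right e1 hJ0.le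
      linarith only [hlaw, this, h3]
    · have := hMx.2
      have h3 : (1 + a) * (5 * τ + τ) * J ≤ τ₀ * J := mul_le_mul_of_nonneg_right e1 hJ0.le
      nlinarith only [hlaw, this, h3]
  have hsup : ∀ ω, 0 < (F.res A True hlaw).p ω → A ω := by
    intro ω hω
    have hω' : 0 < Pool.Agent.H49.Ent.cond F.p A True ω := hω
    have hωA := ((cond_pos_iff hp0.nonneg A True ω).1 hω').2
    simpa using hωA
  obtain ⟨z, hz⟩ : ∃ z : F.Ω → PlZ 3, z = fun ω => φ (Fam.pt F ω) := ⟨_, rfl⟩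
  have hdet : Det (F.res A True hlaw).p (fun ω => ((F.res A True hlaw).l ω,
      (F.res A True hlaw).T1 w ω, (F.res A True hlaw).Z ω)) z := by
    intro ω ω' a1 a2 hh
    have b1 := Prod.ext_iff.mp hh
    have b2 : F.l ω = F.l ω' := b1.1
    have b3 := Prod.ext_iff.mp b1.2
    have b4 : F.T1 w ω = F.T1 w ω' := b3.1
    have b5 : F.Z ω = F.Z ω' := b3.2
    have b6 : slam F w ω = slam F w ω' := by
      unfold slam
      rw [b2, b4, b5]
    rw [hz]
    exact f3 ω ω' (hsup ω a1) (hsup ω' a2) b6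
  have hvis : CH (F.res A True hlaw).p z (fun ω => ((F.res A True hlaw).X J ω,
      (F.res A True hlaw).W ω)) ≤ τ₀ * J := by
    refine (CH_eq_zero (F.res A True hlaw).isLaw.nonneg fun ω ω' _ _ hh => ?_).le.trans
      (by positivity)
    have hh' : Fam.pt F ω = Fam.pt F ω' := hh
    rw [hz]
    exact congrArg φ hh'
  have hfin := hnpl J ((le_max_left _ _).trans ((le_max_right _ _).trans hJ))
    (F.res A True hlaw) hMx3 w (hwx.trans (mul_le_mul_of_nonneg_right (by linarith only [hx'0, hx'x]) hJ0.le))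
    _ z (MA σ) (MB σ) (MA_le σ) (MB_le σ) (MB_MA σ) hdet hvis P hPJ hl3
  -- the projection is determined by the label and the time
  have key := CH_le_round (F.res A True hlaw).isLaw
    (fun ω => fl P (prj (MA σ (z ω)) (Fin.castAdd 2) (F.x ω) : Fin 1 → ℝ))
    (fun _ => (0 : Fin 1 → ℤ)) (fun ω => (z ω, F.W ω))
    (fun ω ω' a1 a2 hh _ j => by
      have b1 := Prod.ext_iff.mp hh
      have b2 : z ω = z ω' := b1.1
      have b3 : F.T ω = F.T ω' := (Prod.ext_iff.mp b1.2).1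
      have g1 := f2 ω (hsup ω a1) 2
      have g2 := f2 ω' (hsup ω' a2) 2
      have e1 : φ (Fam.pt F ω) = z ω := by rw [hz]
      have e2 : φ (Fam.pt F ω') = z ω := by rw [b2, hz]
      rw [e1] at g1
      rw [e2] at g2
      have c1 := Plk.pos (k := ![w, k₁, P]) hwJ g1.1 g1.2
      have c2 := Plk.pos (k := ![w, k₁, P]) hwJ g2.1 g2.2
      have e3 : (2 ^ w * F.t ω' - F.T1 w ω') / 2 ^ w =
          (2 ^ w * F.t ω - F.T1 w ω) / 2 ^ w := by
        unfold Fam.t Fam.T1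
        rw [b3]
      rw [e3] at c2
      obtain ⟨b, hb⟩ : ∃ b : Fin 3 → ℝ, b = fun j => (z ω).2.1 j +
        ((2 ^ w * F.t ω - F.T1 w ω) / 2 ^ w) * (z ω).2.2 j := ⟨_, rfl⟩
      rw [← hb] at c1 c2
      have e4 : (![w, k₁, P] : Fin 3 → ℕ) 2 = P := rfl
      rw [e4, tri_two] at c1 c2
      have hn := fun i => nv_eq (y := z ω) (by rw [hz]; exact f1 _) i
      have hpr : ∀ x : Fin 3 → ℝ, prj (MA σ (z ω)) (Fin.castAdd 2) x j =
          (x (σ 2) + (z ω).1 2 0 * x (σ 0) + (z ω).1 2 1 * x (σ 1)) / 4 := by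
        intro x
        have hj0 : (Fin.castAdd 2 j : Fin (1 + 2)) = 0 := by
          have : j = 0 := Subsingleton.elim _ _
          rw [this]
          rfl
        unfold prj
        rw [hj0]
        have e5 := sum_perm σ fun k => MA σ (z ω) 0 k * x k
        refine e5.trans ?_
        unfold MA
        simp only [σ.injective.eq_iff, hn]
        simp
        ring
      refine Npc.floor_close2 (c := 1) ?_ (by norm_num)
      rw [← b2, hpr, hpr]
      have e6 : (F.x ω (σ 2) + (z ω).1 2 0 * F.x ω (σ 0) + (z ω).1 2 1 * F.x ω (σ 1)) / 4 -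
          (F.x ω' (σ 2) + (z ω).1 2 0 * F.x ω' (σ 0) + (z ω).1 2 1 * F.x ω' (σ 1)) / 4 =
        ((F.x ω (σ 2) - b 2 + ((z ω).1 2 0 * (F.x ω (σ 0) - b 0) +
          (z ω).1 2 1 * (F.x ω (σ 1) - b 1))) -
        (F.x ω' (σ 2) - b 2 + ((z ω).1 2 0 * (F.x ω' (σ 0) - b 0) +
          (z ω).1 2 1 * (F.x ω' (σ 1) - b 1)))) / 4 := by ring
      rw [e6, abs_div, abs_of_pos (by norm_num : (0 : ℝ) < 4), div_le_iff₀ (by norm_num)]
      refine (abs_sub _ _).trans ?_
      have e7 : (1 : ℝ) / 2 ^ P * 4 = 2 / 2 ^ P + 2 / 2 ^ P := by ring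
      rw [e7]
      exact add_le_add c1 c2)
  have c1 : CH (F.res A True hlaw).p (fun _ => (0 : Fin 1 → ℤ)) (fun ω => (z ω, F.W ω)) = 0 :=
    CH_eq_zero (F.res A True hlaw).isLaw.nonneg fun _ _ _ _ _ => rfl
  have c2 : CH (F.res A True hlaw).p
      (fun ω => fl P (prj (MA σ (z ω)) (Fin.castAdd 2) (F.x ω) : Fin 1 → ℝ))
      (fun ω => (z ω, F.W ω)) ≤ cc 1 := by linarith only [hlaw, key, c1]
  have := hfin.trans_le c2
  linarith only [r6, this]

end Pool.S6K
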