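import Pool.Agent.H80.KS6.Start
import Pool.Agent.H80.KS6.Pend

/-!
# Planar windows from frames which are constant on the window
-/

set_option autoImplicit false

namespace Pool.S6K

open Finset Real
open Pool.Agent.H49.Ent Pool.Agent.H32.Dense Pool.STK Pool.KA Pool.KSAT Pool.K2S Pool.KA.TRC

variable {m : ℕ}

/-- Steep slopes of a fine frame are possible at points with a thin fan only. -/
theorem steep_ball {Ω U V : Type} {pt : Ω → U} {wn : Ω → V} {d : Ω → Fin m → ℝ} {A : Ω → Prop}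
    {i₀ : Fin m} {r rb : ℝ} {e n eb nb : U → Fin m → ℝ} {ζ : V → Fin m → ℝ}
    (hb : IsFrame i₀ rb pt d A eb nb) (h : OnL i₀ r pt d A e n)
    (hz : ∀ ω, A ω → ∀ j, |e (pt ω) j - ζ (wn ω) j| ≤ 1) :
    Ball (2 * r + 4 * rb) pt d (fun ω => A ω ∧ ∃ j, 3 < |ζ (wn ω) j|) := by
  classical
  have hex : ∀ y : U, ∃ v : Fin m → ℝ, ∀ ω, A ω → (∃ j, 3 < |ζ (wn ω) j|) → pt ω = y →
      ∀ j, |d ω j - v j| ≤ 2 * r + 4 * rb := by
    intro y
    by_cases hy : ∃ ω, A ω ∧ (∃ j, 3 < |ζ (wn ω) j|) ∧ pt ω = y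
    · obtain ⟨ω₀, h0, -, h00⟩ := hy
      refine ⟨d ω₀, fun ω hω hj hpt k => ?_⟩
      obtain ⟨j, hj⟩ := hj
      have e1 : 2 < |e (pt ω) j| := by
        have := abs_sub_abs_le_abs_sub (ζ (wn ω) j) (e (pt ω) j)
        rw [abs_sub_comm] at this
        linarith only [hj, this, hz, hω, hz ω hω j]
      have e2 := hb.bound ω hω j
      have e3 : 1 ≤ |e (pt ω) j - eb (pt ω) j| := by
        have := abs_sub_abs_le_abs_sub (e (pt ω) j) (eb (pt ω) j)
        linarith only [e1, e2, this]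
      have a1 := h ω hω j
      have a2 := h ω₀ h0 j
      have b1 := hb.line ω hω j
      have b2 := hb.line ω₀ h0 j
      have c1 := hb.line ω hω k
      have c2 := hb.line ω₀ h0 k
      have c3 := hb.bound ω hω k
      rw [h00, ← hpt] at a2 b2 c2
      obtain ⟨Δ, hΔ⟩ : ∃ Δ, Δ = d ω i₀ - d ω₀ i₀ := ⟨_, rfl⟩
      have k1 : |(e (pt ω) j - eb (pt ω) j) * Δ| ≤ 2 * r + 2 * rb := by
        rw [hΔ]
        rw [abs_le] at a1 a2 b1 b2 ⊢
        constructor <;> nlinarith only [a1, a2, b1, b2, a1.1, a1.2, a2.1, a2.2, b1.1, b1.2, b2.1, b2.2]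
      have k2 : |Δ| ≤ 2 * r + 2 * rb := by
        rw [abs_mul] at k1
        have := abs_nonneg Δ
        nlinarith only [k1, e3, this]
      have k3 : |eb (pt ω) k * Δ| ≤ 2 * r + 2 * rb := by
        rw [abs_mul]
        have h1 := abs_nonneg Δ
        have h2 := abs_nonneg (eb (pt ω) k)
        nlinarith only [k2, c3, h1]
      rw [hΔ] at k3
      rw [abs_le] at c1 c2 k3 ⊢
      constructor <;> nlinarith only [c1, c2, k3, c1.1, c1.2, c2.1, c2.2, k3.1, k3.2]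
    · exact ⟨0, fun ω hω hj hpt => absurd ⟨ω, hω, hj, hpt⟩ hy⟩
  choose v hv using hex
  exact ⟨v, fun ω hω => hv _ ω hω.1 hω.2 rfl⟩

/-- The fans are not thin (claim). -/
theorem ball_claim {a R : ℝ} (ha : 1 ≤ a) (hR : 0 < R) (hU : UBa m a R) {x : ℝ} (hx : 0 < x) :
    ∃ τ > 0, ∃ J₁ : ℕ, ∀ J ≥ J₁, ∀ (F : Fam m J) (A : F.Ω → Prop), Fam.Stt F a R τ A →
      ∀ q : ℕ, q ≤ J → x * J ≤ q → ¬ Ball (1 / 2 ^ q) (Fam.pt F) F.d A := by
  obtain ⟨τb, hτb, Jb, hball⟩ := not_ball ap6r ha hR hU hx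
  obtain ⟨τ, hτ⟩ : ∃ τ, τ = τb / (7 * (1 + a)) := ⟨_, rfl⟩
  have hτ0 : 0 < τ := by
    rw [hτ]
    positivity
  refine ⟨τ, hτ0, Jb, fun J hJ F A hS q hq hxq => ?_⟩
  obtain ⟨hlaw, -, hMx, -⟩ := hS.res ha hτ0.le
  have hJ0 : (0 : ℝ) ≤ J := Nat.cast_nonneg J
  rintro ⟨vv, hvv⟩
  have e1 : (1 + a) * (6 * τ) ≤ τb := by
    rw [hτ]
    have : (1 + a) * (6 * (τb / (7 * (1 + a)))) = 6 / 7 * τb := by
      field_simp
    rw [this]
    linarith only [hτb]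
  have hMx' : (F.res A True hlaw).Mx a R τb := by
    refine ⟨?_, ?_⟩
    · have := hMx.1
      unfold Fam.Tm at this ⊢
      have h3 : (1 + a) * (6 * τ) * J ≤ τb * J := mul_le_mul_of_nonneg_right e1 hJ0
      linarith only [hlaw, this, h3]
    · have := hMx.2
      have h3 : (1 + a) * (6 * τ) * J ≤ τb * J := mul_le_mul_of_nonneg_right e1 hJ0
      nlinarith only [hlaw, this, h3]
  refine hball J hJ (F.res A True hlaw) hMx' q hq hxq ⟨vv, fun ω hω k => ?_⟩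
  have hω' : 0 < Pool.Agent.H49.Ent.cond F.p A True ω := hω
  have hωA := ((cond_pos_iff F.isLaw.nonneg A True ω).1 hω').2
  have hA' : A ω := by simpa using hωA
  exact hvv ω hA' k

/-- A bounded factor is smaller than any freedom. -/
theorem exp_small {κ C : ℝ} (hκ : 0 < κ) (hC : 1 ≤ C) : ∃ J₁ : ℕ, ∀ J ≥ J₁,
    Real.exp (-(κ * (J : ℕ))) ≤ 1 / C := by
  obtain ⟨J₁, hJ₁⟩ := exists_nat_gt (Real.log C / κ)
  refine ⟨J₁, fun J hJ => ?_⟩
  have h1 : Real.log C / κ < J := hJ₁.trans_le (by exact_mod_cast hJ)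
  rw [div_lt_iff₀ hκ] at h1
  have hC0 : 0 < C := by linarith only [hC]
  rw [one_div, ← Real.exp_log hC0, ← Real.exp_neg]
  exact Real.exp_le_exp.2 (by linarith only [h1])

/-- A property which holds on a part of bounded proportion holds on the stable event. -/
theorem stb_part {Ω : Type} [Fintype Ω] {p : Ω → ℝ} {κ : ℝ} {A B : Ω → Prop}
    {Q : (Ω → Prop) → Prop} {C : ℝ} (hs : Stb p κ A Q) (hB : Sub B A) (hC : 0 < C)
    (hP : Pe p A ≤ C * Pe p B) (hκ : Real.exp (-κ) ≤ 1 / C) (hA : 0 ≤ Pe p A) (h : Q B) :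
    Q A := by
  refine hs.of_sub hB ?_ h
  calc Real.exp (-κ) * Pe p A ≤ 1 / C * Pe p A := mul_le_mul_of_nonneg_right hκ hA
    _ ≤ 1 / C * (C * Pe p B) := mul_le_mul_of_nonneg_left hP (by positivity)
    _ = Pe p B := by field_simp

/-- **Start.** The window `P` is planar. -/
theorem start_claim (a R : ℝ) (i₀ : Fin 3) (N p : ℕ) (hp : p ≤ N) :
    Claim (m := 3) a R (fun J F A => Pnr F i₀ (J / N) p p A) := by
  refine Claim.one ⟨1, fun J F _ => Pnr F i₀ (J / N) p p, fun _ _ _ => Pnr.hered _ _ _ _ _⟩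
    fun κ hκ => ?_
  obtain ⟨C, hC⟩ : ∃ C : ℝ, C = (2 * ((1 + 4 * 3 + 2 + 1 : ℕ) : ℝ) + 1) ^ (2 * 3) := ⟨_, rfl⟩
  have hC1 : 1 ≤ C := by
    rw [hC]
    norm_num
  obtain ⟨J₁, hJ₁⟩ := exp_small hκ hC1
  refine ⟨1, one_pos, J₁, fun J hJ F A hS hSb => ?_⟩
  have hpu : p * (J / N) ≤ J := (Nat.mul_le_mul_right _ hp).trans (Nat.mul_div_le J N)
  obtain ⟨B, hB, hP, hpl⟩ := plk_start F (Equiv.swap 0 i₀) hpu A
  refine stb_part (hSb 0) hB (by linarith only [hC1] : (0 : ℝ) < C) ?_ (hJ₁ J hJ)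
    (Pe_nonneg F.isLaw A) ?_
  · rw [hC]
    exact_mod_cast hP
  · refine ⟨Equiv.swap 0 i₀, by simp, p * (J / N), le_rfl, le_rfl, ?_⟩
    have e : (![p * (J / N), p * (J / N), p * (J / N)] : Fin 3 → ℕ) = fun _ => p * (J / N) := by
      funext i
      fin_cases i <;> rfl
    rw [e]
    exact hpl

/-- **Smaller windows, smaller thickness (claim).** -/
theorem mono_claim (a R : ℝ) (i₀ : Fin 3) (N p p' v v' : ℕ) (hp : p ≤ N) (hpp : p' ≤ p)
    (hv : v ≤ v') (hv' : v' ≤ p') :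
    Claim (m := 3) a R (fun J F A => Pnr F i₀ (J / N) p v A → Pnr F i₀ (J / N) p' v' A) := by
  refine Claim.one ⟨1, fun J F _ => Pnr F i₀ (J / N) p' v', fun _ _ _ => Pnr.hered _ _ _ _ _⟩
    fun κ hκ => ?_
  obtain ⟨C, hC⟩ : ∃ C : ℝ, C = (2 * ((1 + 4 * 3 + 26 + 1 : ℕ) : ℝ) + 1) ^ (2 * 3) := ⟨_, rfl⟩
  have hC1 : 1 ≤ C := by
    rw [hC]
    norm_num
  obtain ⟨J₁, hJ₁⟩ := exp_small hκ hC1
  refine ⟨1, one_pos, J₁, fun J hJ F A hS hSb h => ?_⟩
  have hpu : p * (J / N) ≤ J := (Nat.mul_le_mul_right _ hp).trans (Nat.mul_div_le J N)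
  obtain ⟨B, hB, hP, hpl⟩ := pnr_mono hv hv' hpp hpu h
  refine stb_part (hSb 0) hB (by linarith only [hC1] : (0 : ℝ) < C) ?_ (hJ₁ J hJ)
    (Pe_nonneg F.isLaw A) hpl
  rw [hC]
  exact hP

/-! ### Planks from constant frames -/

/-- Cut off to `[-4, 4]`. -/
noncomputable def clp (x : ℝ) : ℝ := max (-4) (min 4 x)

theorem clp_le (x : ℝ) : |clp x| ≤ 4 := by
  unfold clp
  rw [abs_le]
  exact ⟨le_max_left _ _, max_le (by norm_num) (min_le_left _ _)⟩

theorem clp_eq {x : ℝ} (h : |x| ≤ 4) : clp x = x := by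
  have := abs_le.1 h
  unfold clp
  rw [min_eq_right this.2, max_eq_right this.1]

/-- If the frames of precision `l` are constant on the windows of length `2 ^ (-w)` and
`P ≤ w + l`, the window `w` is planar. -/
theorem plk_epl {J : ℕ} {F : Fam 3 J} (σ : Equiv.Perm (Fin 3)) {l w P : ℕ} (hw : w ≤ J)
    (hP : P ≤ J) (hl : P ≤ w + l) {A : F.Ω → Prop}
    {e n : (Fin 3 → ℤ) × (ℕ × F.ζ) → Fin 3 → ℝ}
    {ζ : ((Fin 3 → ℝ) × (Fin 3 → ℝ)) × F.ζ × ℕ → Fin 3 → ℝ}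
    (h1 : OnL (σ 0) (1 / 2 ^ l) (Fam.pt F) F.d A e n)
    (h2 : ∀ ω, A ω → ∀ j, |e (Fam.pt F ω) j - ζ (slam F w ω) j| ≤ 1 / 2 ^ l)
    (hz : ∀ ω, A ω → ∀ j, |ζ (slam F w ω) j| ≤ 3) :
    ∃ B : F.Ω → Prop, Sub B A ∧
      Pe F.p A ≤ (2 * ((3 : ℕ) : ℝ) + 1) ^ 3 *
        ((2 * ((1 + 4 * 3 + 6 + 1 : ℕ) : ℝ) + 1) ^ (2 * 3) * Pe F.p B) ∧
      Plk F σ ![w, P, P] w B := by
  classical
  have hl0 : (0 : ℝ) < 2 ^ l := by positivity
  obtain ⟨f, hf⟩ : ∃ f : F.Ω → Fin 3 → ℤ, f = fun ω j => ⌊(2 : ℝ) ^ l * ζ (slam F w ω) j⌋ :=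
    ⟨_, rfl⟩
  obtain ⟨B1, hB1, hP1, φ, hφ⟩ := exact_label F.isLaw 3 (Fam.pt F) f A
    (fun ω ω' hω hω' h i => by
      rw [hf]
      refine floor_near (K := 2) hl0 ?_
      have a1 := h2 ω hω i
      have a2 := h2 ω' hω' i
      rw [← h] at a2
      have e3 : ((2 : ℕ) : ℝ) / 2 ^ l = 1 / 2 ^ l + 1 / 2 ^ l := by push_cast; ring
      rw [e3, abs_le]
      rw [abs_le] at a1 a2
      constructor <;> linarith only [a1, a2, a1.1, a1.2, a2.1, a2.2])
  obtain ⟨M, hM⟩ : ∃ M : (Fin 3 → ℤ) × (ℕ × F.ζ) → Fin 3 → Fin 3 → ℝ, M = fun y i j =>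
    if j = 0 then -clp ((φ y (σ i) : ℝ) / 2 ^ l) else 0 := ⟨_, rfl⟩
  have hM4 : ∀ s i j, |M s i j| ≤ 4 := by
    intro s i j
    rw [hM]
    simp only
    split_ifs
    · rw [abs_neg]
      exact clp_le _
    · simp
  obtain ⟨B2, hB2, hP2, hpl⟩ := plk_of_frame' F (σ := σ) (k := ![w, P, P]) (w := w) (K := 6)
    (A := B1) hw (by
      intro i
      fin_cases i
      · exact hw
      · exact hP
      · exact hP) M hM4
    (fun ω ω' hω hω' hs => by
      have e1 := hφ ω hω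
      have e2 := hφ ω' hω'
      have e3 : f ω = f ω' := by
        rw [hf]
        simp only
        rw [hs]
      rw [hM]
      simp only
      rw [← e1, ← e2, e3])
    (fun ω ω' hω hω' hpt i => by
      -- the first coordinate
      have hlin0 : ∀ (T : Fin 3 → Fin 3 → ℝ) (x : Fin 3 → ℝ), lin σ T x 0 = x (σ 0) := by
        intro T x
        unfold lin
        rw [Fin.sum_univ_three]
        simp
      have hlin : ∀ x : Fin 3 → ℝ, i ≠ 0 → lin σ (M (Fam.pt F ω)) x i =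
          x (σ i) - clp ((φ (Fam.pt F ω) (σ i) : ℝ) / 2 ^ l) * x (σ 0) := by
        intro x hi
        unfold lin
        rw [hM, Fin.sum_univ_three]
        have : (0 : Fin 3) < i := Fin.pos_of_ne_zero hi
        simp [this]
        ring
      by_cases hi : i = 0
      · rw [hi, hlin0, hlin0]
        refine (d_two F ω ω' _).trans ?_
        change (2 : ℝ) ≤ ((6 : ℕ) : ℝ) * 2 ^ w / 2 ^ w
        have : (2 : ℝ) ^ w ≠ 0 := by positivity
        push_cast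
        field_simp
        norm_num
      · rw [hlin _ hi, hlin _ hi]
        -- the slope of the label
        have hs1 : (φ (Fam.pt F ω) (σ i) : ℝ) = (⌊(2 : ℝ) ^ l * ζ (slam F w ω) (σ i)⌋ : ℤ) := by
          rw [← hφ ω hω, hf]
        obtain ⟨s, hs⟩ : ∃ s : ℝ, s = (φ (Fam.pt F ω) (σ i) : ℝ) / 2 ^ l := ⟨_, rfl⟩
        have hs2 : |ζ (slam F w ω) (σ i) - s| ≤ 1 / 2 ^ l := by
          rw [hs, hs1]
          have b1 := Int.floor_le ((2 : ℝ) ^ l * ζ (slam F w ω) (σ i))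
          have b2 := Int.lt_floor_add_one ((2 : ℝ) ^ l * ζ (slam F w ω) (σ i))
          have e3 : ζ (slam F w ω) (σ i) - ((⌊(2 : ℝ) ^ l * ζ (slam F w ω) (σ i)⌋ : ℤ) : ℝ) /
              2 ^ l = ((2 : ℝ) ^ l * ζ (slam F w ω) (σ i) -
                (⌊(2 : ℝ) ^ l * ζ (slam F w ω) (σ i)⌋ : ℤ)) / 2 ^ l := by
            field_simp
          rw [e3, abs_div, abs_of_pos hl0]
          refine div_le_div_of_nonneg_right ?_ hl0.le
          rw [abs_le]
          constructor <;> linarith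
        have hinv : (1 : ℝ) / 2 ^ l ≤ 1 := by
          rw [div_le_one hl0]
          exact one_le_pow₀ (by norm_num)
        have hs4 : |s| ≤ 4 := by
          have b1 := abs_le.1 hs2
          have b2 := abs_le.1 (hz ω (hB1 ω hω) (σ i))
          rw [abs_le]
          constructor <;> linarith only [hinv, b1, b2, b1.1, b1.2, b2.1, b2.2]
        rw [← hs, clp_eq hs4]
        have a1 := h1 ω (hB1 ω hω) (σ i)
        have a2 := h1 ω' (hB1 ω' hω') (σ i)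
        rw [← hpt] at a2
        have a3 : |e (Fam.pt F ω) (σ i) - s| ≤ 2 * (1 / 2 ^ l) := by
          have b1 := abs_le.1 (h2 ω (hB1 ω hω) (σ i))
          have b2 := abs_le.1 hs2
          rw [abs_le]
          constructor <;> linarith only [b1, b2, b1.1, b1.2, b2.1, b2.2]
        have a4 := d_two F ω ω' (σ 0)
        have a5 : |(e (Fam.pt F ω) (σ i) - s) * (F.d ω (σ 0) - F.d ω' (σ 0))| ≤
            4 * (1 / 2 ^ l) := by
          rw [abs_mul]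
          calc _ ≤ 2 * (1 / 2 ^ l) * 2 := mul_le_mul a3 a4 (abs_nonneg _) (by positivity)
            _ = _ := by ring
        have e1 : F.d ω (σ i) - s * F.d ω (σ 0) - (F.d ω' (σ i) - s * F.d ω' (σ 0)) =
            (F.d ω (σ i) - e (Fam.pt F ω) (σ i) * F.d ω (σ 0) - n (Fam.pt F ω) (σ i)) -
            (F.d ω' (σ i) - e (Fam.pt F ω) (σ i) * F.d ω' (σ 0) - n (Fam.pt F ω) (σ i)) +
            (e (Fam.pt F ω) (σ i) - s) * (F.d ω (σ 0) - F.d ω' (σ 0)) := by ring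
        have hk : (![w, P, P] : Fin 3 → ℕ) i = P := by
          revert hi
          fin_cases i <;> simp
        rw [e1, hk]
        have h5 : (1 : ℝ) / 2 ^ l ≤ 2 ^ w / 2 ^ P := by
          rw [div_le_div_iff₀ hl0 (by positivity), one_mul, ← pow_add]
          exact pow_le_pow_right₀ (by norm_num) hl
        have e2 : ((6 : ℕ) : ℝ) * 2 ^ w / 2 ^ P = 6 * (2 ^ w / 2 ^ P) := by push_cast; ring
        rw [e2]
        rw [abs_le] at a1 a2 a5 ⊢
        constructor <;> linarith only [a1, a2, a5, h5, a1.1, a1.2, a2.1, a2.2, a5.1, a5.2])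
  refine ⟨B2, hB2.trans hB1, hP1.trans (mul_le_mul_of_nonneg_left hP2 (by positivity)), hpl⟩

/-- **Planar windows from constant frames (claim).** -/
theorem epl_claim {a R : ℝ} (ha : 1 ≤ a) (hR : 0 < R) (hU : UBa 3 a R) {h₁ : ℝ} (hh₁ : 0 < h₁)
    (i₀ : Fin 3) (N j v p : ℕ) (hj : 1 ≤ j) (hp : p ≤ N) (hv : v ≤ p) (hpj : p ≤ j + v) :
    Claim (m := 3) a R (fun J F A => Lb F i₀ ⌊h₁ * J⌋₊ A →
      Cn F i₀ (j * (J / N)) (v * (J / N)) A → Pnr F i₀ (J / N) p v A) := by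
  classical
  rcases Nat.eq_zero_or_pos N with hN0 | hN0
  · -- no window
    subst hN0
    have hp0 : p = 0 := by omega
    have hv0 : v = 0 := by omega
    subst hp0
    subst hv0
    exact Claim.mono 0 (fun _ _ _ _ h _ _ => h) (start_claim a R i₀ 0 0 le_rfl)
  have hNpos : (0 : ℝ) < N := by exact_mod_cast hN0
  obtain ⟨xb, hxb⟩ : ∃ xb, xb = min h₁ (1 / (2 * N)) / 8 := ⟨_, rfl⟩
  have hmin : 0 < min h₁ (1 / (2 * (N : ℝ))) := lt_min hh₁ (by positivity)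
  have hxb0 : 0 < xb := by rw [hxb]; linarith only [hmin]
  have hxb1 : 8 * xb ≤ h₁ := by
    rw [hxb]
    have := min_le_left h₁ (1 / (2 * (N : ℝ)))
    linarith only [this]
  have hxb2 : 8 * xb ≤ 1 / (2 * N) := by
    rw [hxb]
    have := min_le_right h₁ (1 / (2 * (N : ℝ)))
    linarith only [this]
  obtain ⟨τb, hτb, Jb, hball⟩ := ball_claim (m := 3) ha hR hU hxb0
  refine Claim.one ⟨2, fun J F i => if i = 0 then Ball (1 / 2 ^ (⌊xb * J⌋₊ + 1)) (Fam.pt F) F.d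
    else Pnr F i₀ (J / N) p v, fun J F i => by
      split_ifs
      · exact Ball.hered _ _ _
      · exact Pnr.hered _ _ _ _ _⟩ fun κ hκ => ?_
  obtain ⟨C, hC⟩ : ∃ C : ℝ, C = 2 * ((2 * ((3 : ℕ) : ℝ) + 1) ^ 3 *
    (2 * ((1 + 4 * 3 + 6 + 1 : ℕ) : ℝ) + 1) ^ (2 * 3)) := ⟨_, rfl⟩
  have hC1 : 1 ≤ C := by
    rw [hC]
    norm_num
  obtain ⟨J₁, hJ₁⟩ := exp_small hκ hC1
  obtain ⟨J₃, hJ₃⟩ := exp_small hκ (show (1 : ℝ) ≤ 2 by norm_num)
  obtain ⟨J₂, hJ₂⟩ := exists_nat_gt (8 / xb + 4 * N)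
  refine ⟨τb, hτb, max (max J₁ J₃) (max J₂ Jb), fun J hJ F A hS hSb hLb hCn => ?_⟩
  have k1 : J ≥ J₁ := (le_max_left _ _).trans ((le_max_left _ _).trans hJ)
  have k2 : J ≥ J₃ := (le_max_right _ _).trans ((le_max_left _ _).trans hJ)
  have k3 : J ≥ J₂ := (le_max_left _ _).trans ((le_max_right _ _).trans hJ)
  have k4 : J ≥ Jb := (le_max_right _ _).trans ((le_max_right _ _).trans hJ)
  have hJr : 8 / xb + 4 * N < J := hJ₂.trans_le (by exact_mod_cast k3)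
  have q3 : 0 < 8 / xb := by positivity
  have hJ0 : (0 : ℝ) < J := by linarith only [hNpos, hJr, q3]
  have r3 : 8 ≤ xb * J := by
    have : 8 / xb < J := by linarith only [hNpos, hJr]
    rw [div_lt_iff₀ hxb0] at this
    linarith only [this]
  obtain ⟨u, hu⟩ : ∃ u, u = J / N := ⟨_, rfl⟩
  have hu1 : N * u ≤ J := by rw [hu]; exact Nat.mul_div_le J N
  have hu2 : (J : ℝ) < N * (u + 1) := by rw [hu]; exact_mod_cast Nat.lt_mul_div_succ J hN0
  rw [← hu] at hCn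
  have hSb0 : Stb F.p (κ * J) A (Ball (1 / 2 ^ (⌊xb * J⌋₊ + 1)) (Fam.pt F) F.d) := by
    have := hSb 0
    simpa using this
  have hSb1 : Stb F.p (κ * J) A (Pnr F i₀ (J / N) p v) := by
    have := hSb 1
    simpa using this
  rw [← hu] at hSb1 ⊢
  have hq1 : (⌊xb * J⌋₊ : ℝ) ≤ xb * J := Nat.floor_le (by positivity)
  -- the scale of the ball is smaller than the mesh
  have hju : ⌊xb * J⌋₊ + 1 + 3 ≤ j * u := by
    have h1 : ((⌊xb * J⌋₊ + 1 + 3 : ℕ) : ℝ) ≤ u := by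
      push_cast
      have e1 : 8 * xb * J ≤ 1 / (2 * N) * J := mul_le_mul_of_nonneg_right hxb2 hJ0.le
      have e2 : 1 / (2 * (N : ℝ)) * J ≤ 1 / 2 * (u + 1) := by
        rw [one_div, mul_inv, mul_assoc]
        have : (N : ℝ)⁻¹ * J ≤ u + 1 := by
          rw [inv_mul_le_iff₀ hNpos]
          exact hu2.le
        linarith only [this]
      linarith only [r3, hq1, e1, e2]
    have h2 : ⌊xb * J⌋₊ + 1 + 3 ≤ u := by exact_mod_cast h1
    calc _ ≤ u := h2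
      _ = 1 * u := (one_mul u).symm
      _ ≤ j * u := Nat.mul_le_mul_right u hj
  have hpu : p * u ≤ J := (Nat.mul_le_mul_right _ hp).trans hu1
  have hvu : v * u ≤ J := (Nat.mul_le_mul_right _ hv).trans hpu
  obtain ⟨eb, nb, hb⟩ := hLb
  obtain ⟨e, n, ζ, h1, h2⟩ := hCn
  have hinv : (1 : ℝ) / 2 ^ (j * u) ≤ 1 := by
    rw [div_le_one (by positivity)]
    exact one_le_pow₀ (by norm_num)
  obtain ⟨Bg, hBg⟩ : ∃ Bg : F.Ω → Prop, Bg = fun ω => A ω ∧ ∃ k, 3 < |ζ (slam F (v * u) ω) k| :=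
    ⟨_, rfl⟩
  have hsteep := steep_ball (wn := slam F (v * u)) (ζ := ζ) hb h1
    (fun ω hω k => (h2 ω hω k).trans hinv)
  rw [← hBg] at hsteep
  have hballB : Ball (1 / 2 ^ (⌊xb * J⌋₊ + 1)) (Fam.pt F) F.d Bg := by
    obtain ⟨vv, hvv⟩ := hsteep
    refine ⟨vv, fun ω hω k => (hvv ω hω k).trans (ball_arith hju ?_)⟩
    refine Nat.le_floor ?_
    push_cast
    have : 8 * (xb * J) ≤ h₁ * J := by
      calc 8 * (xb * J) = 8 * xb * J := by ring
        _ ≤ h₁ * J := mul_le_mul_of_nonneg_right hxb1 hJ0.le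
    linarith only [r3, hq1, this]
  have hqJ : ⌊xb * J⌋₊ + 1 ≤ J := by
    have h3 : ((⌊xb * J⌋₊ + 1 : ℕ) : ℝ) ≤ J := by
      push_cast
      have e1 : 1 / (2 * (N : ℝ)) ≤ 1 / 2 := by
        have : (1 : ℝ) ≤ N := by exact_mod_cast hN0
        exact one_div_le_one_div_of_le (by norm_num) (by linarith only [this])
      have e2 : 8 * xb * J ≤ 1 / 2 * J := mul_le_mul_of_nonneg_right (hxb2.trans e1) hJ0.le
      linarith only [hxb0, hxb2, r3, hq1, e1, e2]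
    exact_mod_cast h3
  have hnb : ¬ Ball (1 / 2 ^ (⌊xb * J⌋₊ + 1)) (Fam.pt F) F.d A :=
    hball J k4 F A hS (⌊xb * J⌋₊ + 1) hqJ (by
      push_cast
      exact (Nat.lt_floor_add_one _).le)
  have hBgs : Pe F.p Bg < Real.exp (-(κ * J)) * Pe F.p A := by
    by_contra hcon
    push Not at hcon
    refine hnb (hSb0.of_sub (B := Bg) (fun ω hω => ?_) hcon hballB)
    rw [hBg] at hω
    exact hω.1
  obtain ⟨A', hA'⟩ : ∃ A' : F.Ω → Prop, A' = fun ω => A ω ∧ ¬ Bg ω := ⟨_, rfl⟩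
  have hPA0 := Pe_nonneg F.isLaw A
  have hPA' : Pe F.p A ≤ 2 * Pe F.p A' := by
    have d0 : Pe F.p (fun ω => A ω ∧ Bg ω) ≤ Pe F.p A / 2 := by
      have b1 : Pe F.p (fun ω => A ω ∧ Bg ω) ≤ Pe F.p Bg := Pe_mono F.isLaw fun ω hω => hω.2
      have b2 : Real.exp (-(κ * J)) * Pe F.p A ≤ 1 / 2 * Pe F.p A :=
        mul_le_mul_of_nonneg_right (hJ₃ J k2) hPA0
      linarith only [hBgs, b1, b2]
    have d1 := Pe_diff d0
    have e3 : Real.exp (-Real.log 2) = 1 / 2 := by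
      rw [Real.exp_neg, Real.exp_log (by norm_num)]
      norm_num
    rw [e3] at d1
    rw [hA']
    linarith only [d1]
  obtain ⟨σ, hσ⟩ : ∃ σ : Equiv.Perm (Fin 3), σ = Equiv.swap 0 i₀ := ⟨_, rfl⟩
  have hσ0 : σ 0 = i₀ := by rw [hσ]; simp
  obtain ⟨B, hB, hPB, hpl⟩ := plk_epl (F := F) σ (l := j * u) (w := v * u) (P := p * u)
    (A := A') hvu hpu (by
      rw [← Nat.add_mul]
      refine Nat.mul_le_mul_right u ?_
      omega) (e := e) (n := n) (ζ := ζ)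
    (by
      rw [hσ0]
      intro ω hω
      rw [hA'] at hω
      exact h1 ω hω.1)
    (by
      intro ω hω
      rw [hA'] at hω
      exact h2 ω hω.1)
    (by
      intro ω hω k
      rw [hA'] at hω
      by_contra hk
      push Not at hk
      refine hω.2 ?_
      rw [hBg]
      exact ⟨hω.1, k, hk⟩)
  refine stb_part hSb1 (B := B) (fun ω hω => ?_) (by linarith only [hC1] : (0 : ℝ) < C) ?_ (hJ₁ J k1)
    hPA0 ?_
  · have := hB ω hω
    rw [hA'] at this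
    exact this.1
  · rw [hC]
    calc Pe F.p A ≤ 2 * Pe F.p A' := hPA'
      _ ≤ 2 * ((2 * ((3 : ℕ) : ℝ) + 1) ^ 3 *
        ((2 * ((1 + 4 * 3 + 6 + 1 : ℕ) : ℝ) + 1) ^ (2 * 3) * Pe F.p B)) :=
          mul_le_mul_of_nonneg_left hPB (by norm_num)
      _ = _ := by ring
  · exact ⟨σ, hσ0, p * u, Nat.mul_le_mul_right u hv, le_rfl, hpl⟩

end Pool.S6K
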