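import Pool.Agent.H13.K2S.All

/-!
# Planks: labels of a window which are visible at exact points and constant on the window

A plank of precisions `k` at the window `w`: a triangular frame, a position and a velocity, which
are functions of the exact point and, on the event, functions of the line and of the window of
length `2 ^ (-w)`. The position at the beginning of the window is in the box of precisions `k`, the
velocity in the box of precisions `k - w`.
-/

set_option autoImplicit false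

namespace Pool.S6K

open Finset Real
open Pool.Agent.H49.Ent Pool.Agent.H32.Dense Pool.STK Pool.KA Pool.KSAT Pool.K2S

variable {m J : ℕ}

/-- Frame, position, velocity. -/
abbrev PlZ (m : ℕ) : Type := (Fin m → Fin m → ℝ) × (Fin m → ℝ) × (Fin m → ℝ)

/-- Triangular coordinates of a vector relative to a centre; the centre is indexed by the new
coordinates. -/
noncomputable def tri (σ : Fin m → Fin m) (M : Fin m → Fin m → ℝ) (x : Fin m → ℝ)
    (b : Fin m → ℝ) (i : Fin m) : ℝ :=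
  (x (σ i) - b i) + ∑ j, (if j < i then M i j * (x (σ j) - b j) else 0)

/-- A plank of precisions `k` at the window `w`. -/
def Plk (F : Fam m J) (σ : Fin m → Fin m) (k : Fin m → ℕ) (w : ℕ) (A : F.Ω → Prop) : Prop :=
  ∃ φ : (Fin m → ℤ) × (ℕ × F.ζ) → PlZ m, (∀ s i j, |(φ s).1 i j| ≤ 4) ∧
    (∀ ω, A ω → ∀ i,
      |tri σ (φ (Fam.pt F ω)).1 (F.x1 w ω) (φ (Fam.pt F ω)).2.1 i| ≤ 1 / 2 ^ k i ∧
      |tri σ (φ (Fam.pt F ω)).1 (F.d ω) (φ (Fam.pt F ω)).2.2 i| ≤ 2 ^ w / 2 ^ k i) ∧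
    ∀ ω ω', A ω → A ω' → slam F w ω = slam F w ω' → φ (Fam.pt F ω) = φ (Fam.pt F ω')

theorem Plk.hered (F : Fam m J) (σ : Fin m → Fin m) (k : Fin m → ℕ) (w : ℕ) :
    Hered (Plk F σ k w) := by
  rintro A B hB ⟨φ, h1, h2, h3⟩
  exact ⟨φ, h1, fun ω hω => h2 ω (hB ω hω), fun ω ω' hω hω' => h3 ω ω' (hB ω hω) (hB ω' hω')⟩

/-- **Planar windows**: a plank which contains the line on the window `v u`, in the direction
transversal to a plane of precision `p u`; the precision `k₁` inside the plane is not specified. -/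
def Pnr (F : Fam 3 J) (i₀ : Fin 3) (u p v : ℕ) (A : F.Ω → Prop) : Prop :=
  ∃ σ : Equiv.Perm (Fin 3), σ 0 = i₀ ∧ ∃ k₁ : ℕ, v * u ≤ k₁ ∧ k₁ ≤ p * u ∧
    Plk F σ ![v * u, k₁, p * u] (v * u) A

theorem Pnr.hered (F : Fam 3 J) (i₀ : Fin 3) (u p v : ℕ) : Hered (Pnr F i₀ u p v) := by
  rintro A B hB ⟨σ, h0, k₁, h1, h2, h3⟩
  exact ⟨σ, h0, k₁, h1, h2, Plk.hered F σ _ _ A B hB h3⟩

/-! ### The position in the window -/

theorem x1_eq (F : Fam m J) (w : ℕ) (ω : F.Ω) (j : Fin m) :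
    F.x ω j = F.x1 w ω j + ((2 ^ w * F.t ω - F.T1 w ω) / 2 ^ w) * F.d ω j := by
  unfold Fam.x1 Fam.x
  have : (2 : ℝ) ^ w ≠ 0 := by positivity
  field_simp
  ring

theorem s_mem (F : Fam m J) {w : ℕ} (hw : w ≤ J) (ω : F.Ω) :
    0 ≤ (2 ^ w * F.t ω - F.T1 w ω) / 2 ^ w ∧
    (2 ^ w * F.t ω - F.T1 w ω) / 2 ^ w ≤ 1 / 2 ^ w := by
  have h := T1_real F hw ω
  have hw : (0 : ℝ) < 2 ^ w := by positivity
  constructor
  · exact div_nonneg h.1 (by positivity)
  · exact div_le_div_of_nonneg_right h.2.le hw.le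

theorem tri_add (σ : Fin m → Fin m) (M : Fin m → Fin m → ℝ) (x y a b : Fin m → ℝ) (s : ℝ)
    (i : Fin m) :
    tri σ M (fun j => x j + s * y j) (fun j => a j + s * b j) i =
      tri σ M x a i + s * tri σ M y b i := by
  unfold tri
  rw [mul_add, Finset.mul_sum]
  have h : ∑ j, (if j < i then M i j * ((x (σ j) + s * y (σ j)) - (a j + s * b j)) else 0) =
      ∑ j, (if j < i then M i j * (x (σ j) - a j) else 0) +
        ∑ j, s * (if j < i then M i j * (y (σ j) - b j) else 0) := by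
    rw [← Finset.sum_add_distrib]
    refine Finset.sum_congr rfl fun j _ => ?_
    split_ifs <;> ring
  rw [h]
  ring

/-- The position lies in the moving box. -/
theorem Plk.pos {F : Fam m J} {σ : Fin m → Fin m} {k : Fin m → ℕ} {w : ℕ} (hw : w ≤ J)
    {M : Fin m → Fin m → ℝ} {xb db : Fin m → ℝ} {ω : F.Ω} {i : Fin m}
    (h1 : |tri σ M (F.x1 w ω) xb i| ≤ 1 / 2 ^ k i)
    (h2 : |tri σ M (F.d ω) db i| ≤ 2 ^ w / 2 ^ k i) :
    |tri σ M (F.x ω) (fun j => xb j + ((2 ^ w * F.t ω - F.T1 w ω) / 2 ^ w) * db j) i| ≤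
      2 / 2 ^ k i := by
  obtain ⟨s, hs⟩ : ∃ s, s = (2 ^ w * F.t ω - F.T1 w ω) / 2 ^ w := ⟨_, rfl⟩
  have hm := s_mem F hw ω
  rw [← hs] at hm ⊢
  have e : F.x ω = fun j => F.x1 w ω j + s * F.d ω j := by
    funext j
    rw [hs]
    exact x1_eq F w ω j
  rw [e, tri_add]
  have h3 : |s * tri σ M (F.d ω) db i| ≤ 1 / 2 ^ k i := by
    rw [abs_mul, abs_of_nonneg hm.1]
    calc s * |tri σ M (F.d ω) db i| ≤ 1 / 2 ^ w * (2 ^ w / 2 ^ k i) :=
          mul_le_mul hm.2 h2 (abs_nonneg _) (by positivity)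
      _ = 1 / 2 ^ k i := by
          have : (2 : ℝ) ^ w ≠ 0 := by positivity
          field_simp
  calc _ ≤ |tri σ M (F.x1 w ω) xb i| + |s * tri σ M (F.d ω) db i| := abs_add_le _ _
    _ ≤ 1 / 2 ^ k i + 1 / 2 ^ k i := add_le_add h1 h3
    _ = 2 / 2 ^ k i := by ring

/-! ### Exact labels by restriction to one value of the rounding error -/

/-- A label which is visible up to a bounded number of values is visible on a large part of the
event. -/
theorem exact_label {Ω U : Type} [Fintype Ω] {p : Ω → ℝ} (hp : IsLaw p) {n : ℕ} (K : ℕ)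
    (pt : Ω → U) (f : Ω → Fin n → ℤ) (A : Ω → Prop)
    (hf : ∀ ω ω', A ω → A ω' → pt ω = pt ω' → ∀ i, |f ω i - f ω' i| ≤ K) :
    ∃ B : Ω → Prop, Sub B A ∧ Pe p A ≤ (2 * K + 1) ^ n * Pe p B ∧
      ∃ φ : U → Fin n → ℤ, ∀ ω, B ω → f ω = φ (pt ω) := by
  classical
  -- a representative
  obtain ⟨q, hq⟩ : ∃ q : U → Fin n → ℤ, ∀ ω, A ω → ∀ i, |f ω i - q (pt ω) i| ≤ K := by
    have : ∀ y : U, ∃ v : Fin n → ℤ, ∀ ω, A ω → pt ω = y → ∀ i, |f ω i - v i| ≤ K := by
      intro y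
      by_cases h : ∃ ω, A ω ∧ pt ω = y
      · obtain ⟨ω₀, h1, h2⟩ := h
        exact ⟨f ω₀, fun ω hω hy => hf ω ω₀ hω h1 (hy.trans h2.symm)⟩
      · exact ⟨0, fun ω hω hy => absurd ⟨ω, hω, hy⟩ h⟩
    choose q hq using this
    exact ⟨q, fun ω hω => hq _ ω hω rfl⟩
  obtain ⟨S, hS⟩ : ∃ S : Finset (Fin n → ℤ), S = Fintype.piFinset fun _ => Finset.Icc (-(K : ℤ)) K :=
    ⟨_, rfl⟩
  have hcard : (S.card : ℝ) = (2 * K + 1) ^ n := by
    rw [hS, Fintype.card_piFinset]
    simp only [Int.card_Icc, Finset.prod_const, Finset.card_univ, Fintype.card_fin]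
    push_cast
    congr 1
    have : ((K : ℤ) + 1 - -(K : ℤ)).toNat = 2 * K + 1 := by omega
    rw [this]
    push_cast
    ring
  have hsum : Pe p A ≤ ∑ c ∈ S, Pe p (fun ω => A ω ∧ (fun i => f ω i - q (pt ω) i) = c) := by
    simp only [Pe_eq]
    rw [Finset.sum_comm]
    refine Finset.sum_le_sum fun ω _ => ?_
    by_cases hA : A ω
    · rw [if_pos hA]
      have hmem : (fun i => f ω i - q (pt ω) i) ∈ S := by
        rw [hS, Fintype.mem_piFinset]
        intro i
        rw [Finset.mem_Icc]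
        exact abs_le.1 (hq ω hA i)
      have := Finset.single_le_sum (f := fun c => if A ω ∧ (fun i => f ω i - q (pt ω) i) = c
        then p ω else 0) (fun c _ => by split_ifs <;> simp [hp.nonneg ω]) hmem
      simpa [hA] using this
    · rw [if_neg hA]
      exact Finset.sum_nonneg fun c _ => by split_ifs <;> simp [hp.nonneg ω]
  obtain ⟨c, hc, hcP⟩ : ∃ c ∈ S, Pe p A ≤ S.card *
      Pe p (fun ω => A ω ∧ (fun i => f ω i - q (pt ω) i) = c) := by
    by_contra hcon
    push Not at hcon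
    have hne : S.Nonempty := by
      rw [← Finset.card_pos]
      have : (0 : ℝ) < S.card := by rw [hcard]; positivity
      exact_mod_cast this
    have h1 : ∑ c ∈ S, (S.card : ℝ) * Pe p (fun ω => A ω ∧ (fun i => f ω i - q (pt ω) i) = c) <
        ∑ _c ∈ S, Pe p A := Finset.sum_lt_sum_of_nonempty hne hcon
    rw [← Finset.mul_sum, Finset.sum_const, nsmul_eq_mul] at h1
    have h2 : (0 : ℝ) < S.card := by rw [hcard]; positivity
    have h3 := lt_of_mul_lt_mul_left h1 h2.le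
    linarith
  refine ⟨fun ω => A ω ∧ (fun i => f ω i - q (pt ω) i) = c, fun ω hω => hω.1, ?_,
    fun y i => q y i + c i, fun ω hω => ?_⟩
  · rw [← hcard]
    exact hcP
  · funext i
    have := congrFun hω.2 i
    linarith

end Pool.S6K
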