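import Pool.Agent.H80.KS6.Plk

/-!
# Planks from frames; the trivial plank; smaller windows
-/

set_option autoImplicit false

namespace Pool.S6K

open Finset Real
open Pool.Agent.H49.Ent Pool.Agent.H32.Dense Pool.STK Pool.KA Pool.KSAT Pool.K2S Pool.KA.TRC

variable {m J : ℕ}

/-- Triangular coordinates. -/
noncomputable def lin (σ : Fin m → Fin m) (M : Fin m → Fin m → ℝ) (x : Fin m → ℝ) (i : Fin m) : ℝ :=
  x (σ i) + ∑ j, (if j < i then M i j * x (σ j) else 0)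

theorem tri_lin (σ : Fin m → Fin m) (M : Fin m → Fin m → ℝ) (x y : Fin m → ℝ) (i : Fin m) :
    tri σ M x (fun j => y (σ j)) i = lin σ M x i - lin σ M y i := by
  unfold tri lin
  have h : ∑ j, (if j < i then M i j * (x (σ j) - y (σ j)) else 0) =
      ∑ j, (if j < i then M i j * x (σ j) else 0) -
        ∑ j, (if j < i then M i j * y (σ j) else 0) := by
    rw [← Finset.sum_sub_distrib]
    refine Finset.sum_congr rfl fun j _ => ?_
    split_ifs <;> ring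
  rw [h]
  ring

theorem lin_sub (σ : Fin m → Fin m) (M : Fin m → Fin m → ℝ) (x y : Fin m → ℝ) (s : ℝ)
    (i : Fin m) : lin σ M (fun j => x j - s * y j) i = lin σ M x i - s * lin σ M y i := by
  unfold lin
  rw [mul_add, Finset.mul_sum]
  have h : ∑ j, (if j < i then M i j * (x (σ j) - s * y (σ j)) else 0) =
      ∑ j, (if j < i then M i j * x (σ j) else 0) -
        ∑ j, s * (if j < i then M i j * y (σ j) else 0) := by
    rw [← Finset.sum_sub_distrib]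
    refine Finset.sum_congr rfl fun j _ => ?_
    split_ifs <;> ring
  rw [h]
  ring

/-- Bound for the coordinates. -/
theorem lin_le {σ : Fin m → Fin m} {M : Fin m → Fin m → ℝ} (hM : ∀ i j, |M i j| ≤ 4)
    {x y : Fin m → ℝ} {r : ℝ} (h : ∀ i, |x i - y i| ≤ r) (i : Fin m) :
    |lin σ M x i - lin σ M y i| ≤ (1 + 4 * m) * r := by
  have hr : 0 ≤ r := (abs_nonneg _).trans (h i)
  rw [← tri_lin]
  unfold tri
  have h1 : |∑ j, (if j < i then M i j * (x (σ j) - y (σ j)) else 0)| ≤ ∑ _j : Fin m, 4 * r := by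
    refine (Finset.abs_sum_le_sum_abs _ _).trans (Finset.sum_le_sum fun j _ => ?_)
    split_ifs
    · rw [abs_mul]
      exact mul_le_mul (hM i j) (h _) (abs_nonneg _) (by norm_num)
    · rw [abs_zero]
      positivity
  rw [Finset.sum_const, Finset.card_univ, Fintype.card_fin, nsmul_eq_mul] at h1
  calc _ ≤ |x (σ i) - y (σ i)| + |∑ j, (if j < i then M i j * (x (σ j) - y (σ j)) else 0)| :=
        abs_add_le _ _
    _ ≤ r + m * (4 * r) := add_le_add (h _) h1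
    _ = _ := by ring

theorem floor_near {c x y : ℝ} (hc : 0 < c) {K : ℕ} (h : |x - y| ≤ K / c) :
    |⌊c * x⌋ - ⌊c * y⌋| ≤ ((K + 1 : ℕ) : ℤ) := by
  have h1 : |c * x - c * y| ≤ K := by
    rw [← mul_sub, abs_mul, abs_of_pos hc]
    calc c * |x - y| ≤ c * (K / c) := mul_le_mul_of_nonneg_left h hc.le
      _ = K := by field_simp
  have a1 := Int.floor_le (c * x)
  have a2 := Int.lt_floor_add_one (c * x)
  have b1 := Int.floor_le (c * y)
  have b2 := Int.lt_floor_add_one (c * y)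
  rw [abs_le] at h1
  have h2 : |((⌊c * x⌋ - ⌊c * y⌋ : ℤ) : ℝ)| ≤ ((K + 1 : ℕ) : ℝ) := by
    push_cast
    rw [abs_le]
    constructor <;> linarith [h1.1, h1.2]
  exact_mod_cast h2

theorem near_floor {c x y : ℝ} (hc : 0 < c) (h : ⌊c * x⌋ = ⌊c * y⌋) : |x - y| ≤ 1 / c := by
  have a1 := Int.floor_le (c * x)
  have a2 := Int.lt_floor_add_one (c * x)
  have b1 := Int.floor_le (c * y)
  have b2 := Int.lt_floor_add_one (c * y)
  rw [← h] at b1 b2
  have h1 : |c * (x - y)| ≤ 1 := by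
    rw [abs_le]
    constructor <;> linarith
  rw [abs_mul, abs_of_pos hc] at h1
  rw [le_div_iff₀ hc]
  linarith

/-- **Planks from frames.** An exact frame, in which positions and velocities are visible up to a
bounded multiple of the sides of the box. -/
theorem plk_of_frame (F : Fam m J) {σ : Fin m → Fin m} {k : Fin m → ℕ} {w K : ℕ}
    {A : F.Ω → Prop} (M : (Fin m → ℤ) × (ℕ × F.ζ) → Fin m → Fin m → ℝ)
    (hM : ∀ s i j, |M s i j| ≤ 4)
    (hc : ∀ ω ω', A ω → A ω' → slam F w ω = slam F w ω' → M (Fam.pt F ω) = M (Fam.pt F ω'))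
    (hx : ∀ ω ω', A ω → A ω' → Fam.pt F ω = Fam.pt F ω' → ∀ i,
      |lin σ (M (Fam.pt F ω)) (F.x1 w ω) i - lin σ (M (Fam.pt F ω)) (F.x1 w ω') i| ≤
        K / 2 ^ k i)
    (hd : ∀ ω ω', A ω → A ω' → Fam.pt F ω = Fam.pt F ω' → ∀ i,
      |lin σ (M (Fam.pt F ω)) (F.d ω) i - lin σ (M (Fam.pt F ω)) (F.d ω') i| ≤
        K / (2 ^ k i / 2 ^ w)) :
    ∃ B : F.Ω → Prop, Sub B A ∧ Pe F.p A ≤ (2 * ((K + 1 : ℕ) : ℝ) + 1) ^ (2 * m) * Pe F.p B ∧
      Plk F σ k w B := by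
  classical
  obtain ⟨f1, hf1⟩ : ∃ f1 : F.Ω → Fin m → ℤ, f1 = fun ω i =>
    ⌊(2 : ℝ) ^ k i * lin σ (M (Fam.pt F ω)) (F.x1 w ω) i⌋ := ⟨_, rfl⟩
  obtain ⟨f2, hf2⟩ : ∃ f2 : F.Ω → Fin m → ℤ, f2 = fun ω i =>
    ⌊(2 : ℝ) ^ k i / 2 ^ w * lin σ (M (Fam.pt F ω)) (F.d ω) i⌋ := ⟨_, rfl⟩
  have hx1 : ∀ ω ω', slam F w ω = slam F w ω' → F.x1 w ω = F.x1 w ω' ∧ F.d ω = F.d ω' := by
    intro ω ω' h
    have h1 := Prod.ext_iff.mp h
    have h2 := Prod.ext_iff.mp h1.2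
    have h3 : F.l ω = F.l ω' := h1.1
    have h4 : F.u ω = F.u ω' ∧ F.d ω = F.d ω' := Prod.ext_iff.mp h3
    have h5 : F.T1 w ω = F.T1 w ω' := h2.2
    refine ⟨?_, h4.2⟩
    funext i
    unfold Fam.x1
    rw [h4.1, h4.2, h5]
  obtain ⟨B1, hB1, hP1, φ1, hφ1⟩ := exact_label F.isLaw (K + 1) (Fam.pt F) f1 A
    (fun ω ω' hω hω' h i => by
      rw [hf1]
      simp only
      rw [← h]
      exact floor_near (by positivity) (hx ω ω' hω hω' h i))
  obtain ⟨B2, hB2, hP2, φ2, hφ2⟩ := exact_label F.isLaw (K + 1) (Fam.pt F) f2 B1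
    (fun ω ω' hω hω' h i => by
      rw [hf2]
      simp only
      rw [← h]
      exact floor_near (by positivity) (hd ω ω' (hB1 ω hω) (hB1 ω' hω') h i))
  refine ⟨B2, hB2.trans hB1, ?_, ?_⟩
  · rw [show 2 * m = m + m by ring, pow_add]
    calc Pe F.p A ≤ (2 * ((K + 1 : ℕ) : ℝ) + 1) ^ m * Pe F.p B1 := hP1
      _ ≤ (2 * ((K + 1 : ℕ) : ℝ) + 1) ^ m * ((2 * ((K + 1 : ℕ) : ℝ) + 1) ^ m * Pe F.p B2) :=
          mul_le_mul_of_nonneg_left hP2 (by positivity)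
      _ = _ := by ring
  -- representatives of the values of the label
  obtain ⟨rx, rd, hr⟩ : ∃ rx rd : (Fin m → Fin m → ℝ) × (Fin m → ℤ) × (Fin m → ℤ) → Fin m → ℝ,
      ∀ ω, B2 ω → ∀ i,
        |lin σ (M (Fam.pt F ω)) (F.x1 w ω) i - lin σ (M (Fam.pt F ω))
          (rx (M (Fam.pt F ω), f1 ω, f2 ω)) i| ≤ 1 / 2 ^ k i ∧
        |lin σ (M (Fam.pt F ω)) (F.d ω) i - lin σ (M (Fam.pt F ω))
          (rd (M (Fam.pt F ω), f1 ω, f2 ω)) i| ≤ 1 / (2 ^ k i / 2 ^ w) := by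
    have hex : ∀ t : (Fin m → Fin m → ℝ) × (Fin m → ℤ) × (Fin m → ℤ),
        ∃ v : (Fin m → ℝ) × (Fin m → ℝ), ∀ ω, B2 ω → (M (Fam.pt F ω), f1 ω, f2 ω) = t → ∀ i,
        |lin σ (M (Fam.pt F ω)) (F.x1 w ω) i - lin σ (M (Fam.pt F ω)) v.1 i| ≤ 1 / 2 ^ k i ∧
        |lin σ (M (Fam.pt F ω)) (F.d ω) i - lin σ (M (Fam.pt F ω)) v.2 i| ≤
          1 / (2 ^ k i / 2 ^ w) := by
      intro t
      by_cases h : ∃ ω, B2 ω ∧ (M (Fam.pt F ω), f1 ω, f2 ω) = t
      · obtain ⟨ω₀, h1, h2⟩ := h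
        refine ⟨(F.x1 w ω₀, F.d ω₀), fun ω hω ht i => ?_⟩
        have e := ht.trans h2.symm
        have e1 := Prod.ext_iff.mp e
        have e2 := Prod.ext_iff.mp e1.2
        have e3 : M (Fam.pt F ω) = M (Fam.pt F ω₀) := e1.1
        have e4 : f1 ω = f1 ω₀ := e2.1
        have e5 : f2 ω = f2 ω₀ := e2.2
        have e6 := congrFun e4 i
        have e7 := congrFun e5 i
        rw [hf1] at e6
        rw [hf2] at e7
        simp only [← e3] at e6 e7
        exact ⟨near_floor (by positivity) e6, near_floor (by positivity) e7⟩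
      · exact ⟨(0, 0), fun ω hω ht => absurd ⟨ω, hω, ht⟩ h⟩
    choose v hv using hex
    exact ⟨fun t => (v t).1, fun t => (v t).2, fun ω hω => hv _ ω hω rfl⟩
  refine ⟨fun y => (M y, (fun j => rx (M y, φ1 y, φ2 y) (σ j)),
    fun j => rd (M y, φ1 y, φ2 y) (σ j)), hM, fun ω hω i => ?_, fun ω ω' hω hω' h => ?_⟩
  · have e1 := hφ1 ω (hB2 ω hω)
    have e2 := hφ2 ω hω
    obtain ⟨a1, a2⟩ := hr ω hω i
    rw [e1, e2] at a1 a2
    refine ⟨?_, ?_⟩
    · rw [tri_lin]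
      exact a1
    · rw [tri_lin]
      refine a2.trans (le_of_eq ?_)
      rw [one_div_div]
  · have e0 := hc ω ω' (hB1 ω (hB2 ω hω)) (hB1 ω' (hB2 ω' hω')) h
    obtain ⟨e3, e4⟩ := hx1 ω ω' h
    have e1 : φ1 (Fam.pt F ω) = φ1 (Fam.pt F ω') := by
      rw [← hφ1 ω (hB2 ω hω), ← hφ1 ω' (hB2 ω' hω'), hf1]
      funext i
      simp only
      rw [e0, e3]
    have e2 : φ2 (Fam.pt F ω) = φ2 (Fam.pt F ω') := by
      rw [← hφ2 ω hω, ← hφ2 ω' hω', hf2]
      funext i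
      simp only
      rw [e0, e4]
    simp only
    rw [e0, e1, e2]

/-! ### Two samples at one exact point -/

theorem pt_x {F : Fam m J} {ω ω' : F.Ω} (h : Fam.pt F ω = Fam.pt F ω') (i : Fin m) :
    |F.x ω i - F.x ω' i| ≤ 1 / 2 ^ J := by
  have e4 : F.X J ω = F.X J ω' ∧ F.W ω = F.W ω' := Prod.ext_iff.mp h
  exact near_floor (by positivity) (congrFun e4.1 i)

theorem pt_T {F : Fam m J} {ω ω' : F.Ω} (h : Fam.pt F ω = Fam.pt F ω') : F.T ω = F.T ω' := by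
  have e4 : F.X J ω = F.X J ω' ∧ F.W ω = F.W ω' := Prod.ext_iff.mp h
  exact (Prod.ext_iff.mp e4.2).1

theorem d_two (F : Fam m J) (ω ω' : F.Ω) (i : Fin m) : |F.d ω i - F.d ω' i| ≤ 2 := by
  have b1 := abs_le.1 (F.dir ω i)
  have b2 := abs_le.1 (F.dir ω' i)
  rw [abs_le]
  constructor <;> linarith [b1.1, b1.2, b2.1, b2.2]

/-- The position at the beginning of the window in triangular coordinates: two samples at one
exact point. -/
theorem lin_x1 {F : Fam m J} {σ : Fin m → Fin m} {M : Fin m → Fin m → ℝ}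
    (hM : ∀ i j, |M i j| ≤ 4) {w k : ℕ} (hw : w ≤ J) (hk : k ≤ J) {ω ω' : F.Ω}
    (h : Fam.pt F ω = Fam.pt F ω') {i : Fin m} {C : ℝ}
    (hd : |lin σ M (F.d ω) i - lin σ M (F.d ω') i| ≤ C * 2 ^ w / 2 ^ k) :
    |lin σ M (F.x1 w ω) i - lin σ M (F.x1 w ω') i| ≤ ((1 + 4 * m) + C) / 2 ^ k := by
  obtain ⟨s, hs⟩ : ∃ s, s = (2 ^ w * F.t ω - F.T1 w ω) / 2 ^ w := ⟨_, rfl⟩
  have hs' : s = (2 ^ w * F.t ω' - F.T1 w ω') / 2 ^ w := by
    rw [hs]
    unfold Fam.t Fam.T1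
    rw [pt_T h]
  have hm := s_mem F hw ω
  rw [← hs] at hm
  have e1 : F.x1 w ω = fun j => F.x ω j - s * F.d ω j := by
    funext j
    rw [x1_eq F w ω j, ← hs]
    ring
  have e2 : F.x1 w ω' = fun j => F.x ω' j - s * F.d ω' j := by
    funext j
    rw [x1_eq F w ω' j, ← hs']
    ring
  rw [e1, e2, lin_sub, lin_sub]
  have h1 := lin_le (σ := σ) hM (fun i => pt_x h i) i
  have h2 : (1 : ℝ) / 2 ^ J ≤ 1 / 2 ^ k :=
    one_div_le_one_div_of_le (by positivity) (pow_le_pow_right₀ (by norm_num) hk)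
  have h3 : |s * (lin σ M (F.d ω) i - lin σ M (F.d ω') i)| ≤ C / 2 ^ k := by
    rw [abs_mul, abs_of_nonneg hm.1]
    have hC : 0 ≤ C * 2 ^ w / 2 ^ k := (abs_nonneg _).trans hd
    calc s * |lin σ M (F.d ω) i - lin σ M (F.d ω') i| ≤ 1 / 2 ^ w * (C * 2 ^ w / 2 ^ k) :=
          mul_le_mul hm.2 hd (abs_nonneg _) (by positivity)
      _ = C / 2 ^ k := by
          have : (2 : ℝ) ^ w ≠ 0 := by positivity
          field_simp
  have e3 : lin σ M (F.x ω) i - s * lin σ M (F.d ω) i -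
      (lin σ M (F.x ω') i - s * lin σ M (F.d ω') i) =
      (lin σ M (F.x ω) i - lin σ M (F.x ω') i) -
        s * (lin σ M (F.d ω) i - lin σ M (F.d ω') i) := by ring
  rw [e3]
  calc _ ≤ |lin σ M (F.x ω) i - lin σ M (F.x ω') i| +
        |s * (lin σ M (F.d ω) i - lin σ M (F.d ω') i)| := abs_sub _ _
    _ ≤ (1 + 4 * m) * (1 / 2 ^ k) + C / 2 ^ k :=
        add_le_add (h1.trans (mul_le_mul_of_nonneg_left h2 (by positivity))) h3
    _ = _ := by ring

/-- A version of `plk_of_frame` in which only the velocities are to be checked. -/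
theorem plk_of_frame' (F : Fam m J) {σ : Fin m → Fin m} {k : Fin m → ℕ} {w K : ℕ} (hw : w ≤ J)
    (hk : ∀ i, k i ≤ J)
    {A : F.Ω → Prop} (M : (Fin m → ℤ) × (ℕ × F.ζ) → Fin m → Fin m → ℝ)
    (hM : ∀ s i j, |M s i j| ≤ 4)
    (hc : ∀ ω ω', A ω → A ω' → slam F w ω = slam F w ω' → M (Fam.pt F ω) = M (Fam.pt F ω'))
    (hd : ∀ ω ω', A ω → A ω' → Fam.pt F ω = Fam.pt F ω' → ∀ i,
      |lin σ (M (Fam.pt F ω)) (F.d ω) i - lin σ (M (Fam.pt F ω)) (F.d ω') i| ≤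
        K * 2 ^ w / 2 ^ k i) :
    ∃ B : F.Ω → Prop, Sub B A ∧
      Pe F.p A ≤ (2 * ((1 + 4 * m + K + 1 : ℕ) : ℝ) + 1) ^ (2 * m) * Pe F.p B ∧
      Plk F σ k w B := by
  refine plk_of_frame F (K := 1 + 4 * m + K) M hM hc (fun ω ω' hω hω' h i => ?_)
    (fun ω ω' hω hω' h i => ?_)
  · have := lin_x1 (hM (Fam.pt F ω)) hw (hk i) h (hd ω ω' hω hω' h i)
    refine this.trans (le_of_eq ?_)
    push_cast
    ring
  · refine (hd ω ω' hω hω' h i).trans ?_
    rw [div_div_eq_mul_div]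
    refine div_le_div_of_nonneg_right (mul_le_mul_of_nonneg_right ?_ (by positivity))
      (by positivity)
    push_cast
    have : (0 : ℝ) ≤ m := Nat.cast_nonneg m
    linarith

/-- The trivial plank. -/
theorem plk_start (F : Fam m J) (σ : Fin m → Fin m) {P : ℕ} (hP : P ≤ J) (A : F.Ω → Prop) :
    ∃ B : F.Ω → Prop, Sub B A ∧
      Pe F.p A ≤ (2 * ((1 + 4 * m + 2 + 1 : ℕ) : ℝ) + 1) ^ (2 * m) * Pe F.p B ∧
      Plk F σ (fun _ => P) P B := by
  refine plk_of_frame' F (K := 2) hP (fun _ => hP) (fun _ _ _ => 0) (fun _ _ _ => by simp)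
    (fun _ _ _ _ _ => rfl) (fun ω ω' _ _ _ i => ?_)
  have h1 : ∀ x : Fin m → ℝ, lin σ (fun _ _ => 0) x i = x (σ i) := by
    intro x
    unfold lin
    simp
  rw [h1, h1]
  have : (2 : ℕ) * (2 : ℝ) ^ P / 2 ^ P = 2 := by
    have : (2 : ℝ) ^ P ≠ 0 := by positivity
    push_cast
    field_simp
  rw [this]
  exact d_two F ω ω' _

/-- A window determines the larger windows. -/
theorem slam_mono {F : Fam m J} {w w' : ℕ} (h : w ≤ w') (hJ : w' ≤ J) {ω ω' : F.Ω}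
    (hs : slam F w' ω = slam F w' ω') : slam F w ω = slam F w ω' := by
  have h1 := Prod.ext_iff.mp hs
  have h2 := Prod.ext_iff.mp h1.2
  have h3 : F.l ω = F.l ω' := h1.1
  have h4 : F.Z ω = F.Z ω' := h2.1
  have h5 : F.T1 w' ω = F.T1 w' ω' := h2.2
  have key : ∀ ω : F.Ω, F.T1 w ω = F.T1 w' ω / 2 ^ (w' - w) := by
    intro ω
    unfold Fam.T1
    rw [Nat.div_div_eq_div_mul, ← pow_add]
    congr 2
    omega
  unfold slam
  rw [h3, h4, key, key, h5]

/-- **Smaller windows, smaller thickness.** A planar window gives planar windows inside it. -/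
theorem pnr_mono {F : Fam 3 J} {i₀ : Fin 3} {u p p' v v' : ℕ} (hv : v ≤ v') (hv' : v' ≤ p')
    (hpp : p' ≤ p) (hp : p * u ≤ J) {A : F.Ω → Prop} (h : Pnr F i₀ u p v A) :
    ∃ B : F.Ω → Prop, Sub B A ∧
      Pe F.p A ≤ (2 * ((1 + 4 * 3 + 26 + 1 : ℕ) : ℝ) + 1) ^ (2 * 3) * Pe F.p B ∧
      Pnr F i₀ u p' v' B := by
  obtain ⟨σ, hσ, k₁, hk1, hk2, φ, f1, f2, f3⟩ := h
  have hvu : v * u ≤ v' * u := Nat.mul_le_mul_right u hv
  have hpu : p' * u ≤ p * u := Nat.mul_le_mul_right u hpp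
  have hvu' : v' * u ≤ p' * u := Nat.mul_le_mul_right u hv'
  have hvp : v' * u ≤ p * u := hvu'.trans hpu
  obtain ⟨k', hk'⟩ : ∃ k', k' = min (max k₁ (v' * u)) (p' * u) := ⟨_, rfl⟩
  have hk'1 : v' * u ≤ k' := by
    rw [hk']
    exact le_min (le_max_right _ _) hvu'
  have hk'2 : k' ≤ p' * u := by
    rw [hk']
    exact min_le_right _ _
  obtain ⟨B, hB, hP, hpl⟩ := plk_of_frame' F (σ := σ) (k := ![v' * u, k', p' * u]) (w := v' * u)
    (K := 26) (A := A) (hvp.trans hp) (by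
      intro i
      fin_cases i
      · exact hvp.trans hp
      · exact hk'2.trans (hpu.trans hp)
      · exact hpu.trans hp) (fun y => (φ y).1) f1
    (fun ω ω' hω hω' hs => congrArg Prod.fst
      (f3 ω ω' hω hω' (slam_mono hvu (hvp.trans hp) hs)))
    (fun ω ω' hω hω' hpt i => by
      have g1 := (f2 ω hω i).2
      have g2 := (f2 ω' hω' i).2
      rw [← hpt] at g2
      have g3 : |lin σ (φ (Fam.pt F ω)).1 (F.d ω) i - lin σ (φ (Fam.pt F ω)).1 (F.d ω') i| ≤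
          2 * 2 ^ (v * u) / 2 ^ (![v * u, k₁, p * u] : Fin 3 → ℕ) i := by
        have e : ∀ x y b : Fin 3 → ℝ, lin σ (φ (Fam.pt F ω)).1 x i -
            lin σ (φ (Fam.pt F ω)).1 y i = tri σ (φ (Fam.pt F ω)).1 x b i -
              tri σ (φ (Fam.pt F ω)).1 y b i := by
          intro x y b
          unfold lin tri
          have h1 : ∀ x : Fin 3 → ℝ, ∑ j, (if j < i then (φ (Fam.pt F ω)).1 i j *
              (x (σ j) - b j) else 0) = ∑ j, (if j < i then (φ (Fam.pt F ω)).1 i j *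
              x (σ j) else 0) - ∑ j, (if j < i then (φ (Fam.pt F ω)).1 i j * b j else 0) := by
            intro x
            rw [← Finset.sum_sub_distrib]
            refine Finset.sum_congr rfl fun j _ => ?_
            split_ifs <;> ring
          rw [h1, h1]
          ring
        rw [e _ _ (φ (Fam.pt F ω)).2.2]
        refine (abs_sub _ _).trans ?_
        have e2 : (2 : ℝ) * 2 ^ (v * u) / 2 ^ (![v * u, k₁, p * u] : Fin 3 → ℕ) i =
          2 ^ (v * u) / 2 ^ (![v * u, k₁, p * u] : Fin 3 → ℕ) i +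
          2 ^ (v * u) / 2 ^ (![v * u, k₁, p * u] : Fin 3 → ℕ) i := by ring
        rw [e2]
        exact add_le_add g1 g2
      have g4 : |lin σ (φ (Fam.pt F ω)).1 (F.d ω) i - lin σ (φ (Fam.pt F ω)).1 (F.d ω') i| ≤
          26 := by
        have := lin_le (σ := σ) (f1 (Fam.pt F ω)) (fun i => d_two F ω ω' i) i
        refine this.trans (le_of_eq ?_)
        norm_num
      have hpow : (2 : ℝ) ^ (v * u) ≤ 2 ^ (v' * u) := pow_le_pow_right₀ (by norm_num) hvu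
      have hgen : ∀ q q' : ℕ, q' ≤ q →
          2 * (2 : ℝ) ^ (v * u) / 2 ^ q ≤ ((26 : ℕ) : ℝ) * 2 ^ (v' * u) / 2 ^ q' := by
        intro q q' hq
        have h1 : (2 : ℝ) ^ q' ≤ 2 ^ q := pow_le_pow_right₀ (by norm_num) hq
        have h2 : (0 : ℝ) < 2 ^ (v * u) := by positivity
        refine div_le_div₀ (by positivity) ?_ (by positivity) h1
        push_cast
        linarith
      have htop : ∀ q : ℕ, q ≤ v' * u → (26 : ℝ) ≤ ((26 : ℕ) : ℝ) * 2 ^ (v' * u) / 2 ^ q := by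
        intro q hq
        have h1 : (2 : ℝ) ^ q ≤ 2 ^ (v' * u) := pow_le_pow_right₀ (by norm_num) hq
        rw [le_div_iff₀ (by positivity)]
        push_cast
        linarith
      fin_cases i
      · exact g4.trans (htop _ le_rfl)
      · change _ ≤ ((26 : ℕ) : ℝ) * 2 ^ (v' * u) / 2 ^ k'
        rcases le_total k₁ (v' * u) with h1 | h1
        · refine g4.trans (htop _ ?_)
          rw [hk', max_eq_right h1]
          exact min_le_left _ _
        · refine g3.trans (hgen k₁ k' ?_)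
          rw [hk', max_eq_left h1]
          exact min_le_left _ _
      · exact g3.trans (hgen (p * u) (p' * u) hpu))
  exact ⟨B, hB, hP, σ, hσ, k', hk'1, hk'2, hpl⟩

end Pool.S6K
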