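import Pool.Agent.H80.KS6.Epl

/-!
# The skeleton of the case of one-dimensional fans, `m = 3`

All scales are multiples of the mesh unit `u = J / N`. `p u` is the thickness of the planks, `v u`
the exponent of the window, `(q + r) u` a precision to which the fans at exact points are straight,
`r u` the margin between the turning and the straightness. A window is planar (`Pnr`) if it has a
visible and constant plank of thickness `p u`.

(BETA): on the smallest window on which the directions are constant to the precision `q u` there is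
a plank of thickness `p₂ u`, close to `J`. (ALPHA): below this window the planks of thickness
`p₁ u < p₂ u` persist. (NCW): the directions are not constant on small windows. The end: planks are
impossible on small windows.
-/

set_option autoImplicit false

namespace Pool.S6K

open Finset Real
open Pool.Agent.H49.Ent Pool.Agent.H32.Dense Pool.STK Pool.KA Pool.KSAT Pool.K2S

/-- **(NCW)** The direction of the fans cannot be constant, to a macroscopic precision, on the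
windows of small length exponent. -/
def NCWStmt : Prop :=
  ∀ (m : ℕ) (a R : ℝ), 2 ≤ m → 1 < a → 0 < R → UBa m a R → ∀ h₁ : ℝ, 0 < h₁ →
    ∃ x : ℝ, 0 < x ∧ ∃ N₁ : ℕ, ∀ N ≥ N₁, ∀ (i₀ : Fin m) (j v : ℕ), j ≤ N → h₁ * N ≤ j →
    (v : ℝ) ≤ x * N → Claim (m := m) a R (fun J F A => Lb F i₀ ⌊h₁ * J⌋₊ A →
      Ln F i₀ (j * (J / N)) A → Cn F i₀ (j * (J / N)) (v * (J / N)) A → False)

/-- **(ALPHA)** The step in regime alpha: on all windows from `v` to `vz` (excluded) the direction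
turns at a precision coarser than `q`, and the fans are straight to the precision `q + r`. If the
window `vz` is planar with thickness `p₂`, and the windows between `v` and `vz` are planar with
thickness `p₁`, then `v` is planar with thickness `p₁`. The tail after `p₂` is much shorter than
the tail after `p₁`. -/
def ALPHAStmt : Prop :=
  ∀ a R : ℝ, 1 < a → 0 < R → UBa 3 a R → ∀ h₁ ω₀ : ℝ, 0 < h₁ → 0 < ω₀ →
    ∃ x₀ : ℝ, 0 < x₀ ∧ ∃ c₁ : ℝ, 0 < c₁ ∧ c₁ ≤ 1 ∧ ∀ X y : ℝ, 0 < X → 0 < y → ∃ N₁ : ℕ, ∀ N ≥ N₁,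
    ∀ (i₀ : Fin 3) (p₁ p₂ q r vz v : ℕ), p₁ ≤ p₂ → p₂ ≤ N → X * N ≤ (N : ℝ) - p₁ →
    (N : ℝ) - p₁ ≤ x₀ * N → (N : ℝ) - p₂ ≤ c₁ * ((N : ℝ) - p₁) →
    c₁ / 4 * ((N : ℝ) - p₁) ≤ (N : ℝ) - p₂ → h₁ * N ≤ q → q + r ≤ N → y * N ≤ r →
    v < vz → vz ≤ p₂ → v < p₁ → ω₀ * N ≤ v →
    Claim (m := 3) a R (fun J F A => Lb F i₀ ⌊h₁ * J⌋₊ A → Ln F i₀ ((q + r) * (J / N)) A →
      Pnr F i₀ (J / N) p₂ vz A →
      (∀ v', v ≤ v' → v' < vz → ¬ Cn F i₀ (q * (J / N)) (v' * (J / N)) A) →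
      ¬ Cn F i₀ ((p₁ - v) * (J / N)) (v * (J / N)) A →
      (∀ v', v < v' → v' ≤ vz → v' ≤ p₁ → Pnr F i₀ (J / N) p₁ v' A) →
      Pnr F i₀ (J / N) p₁ v A)

/-- **(BETA)** The smallest window on which the direction is constant to the precision `q`, where
the fans are straight to a precision between `q` and `q + r`, is planar. -/
def BETAStmt : Prop :=
  ∀ a R : ℝ, 1 < a → 0 < R → UBa 3 a R → ∀ h₁ ω₀ X : ℝ, 0 < h₁ → 0 < ω₀ → 0 < X →
    ∃ y₀ : ℝ, 0 < y₀ ∧ ∃ N₁ : ℕ, ∀ N ≥ N₁, ∀ (i₀ : Fin 3) (p q r v : ℕ),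
    p ≤ N → X * N ≤ (N : ℝ) - p → h₁ * N ≤ q → q + r ≤ N → (r : ℝ) ≤ y₀ * N → q + v < p →
    1 ≤ v → ω₀ * N ≤ (v : ℝ) - 1 →
    Claim (m := 3) a R (fun J F A => Lb F i₀ ⌊h₁ * J⌋₊ A → Ln F i₀ ((q + r) * (J / N)) A →
      (q + r < N → ¬ Ln F i₀ ((q + r + 1) * (J / N)) A) →
      Cn F i₀ (q * (J / N)) (v * (J / N)) A →
      ¬ Cn F i₀ (q * (J / N)) ((v - 1) * (J / N)) A → Pnr F i₀ (J / N) p v A)

/-- The case of one-dimensional fans is impossible. -/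
def S6Stmt : Prop :=
  ∀ a R : ℝ, 1 < a → 0 < R → UBa 3 a R → ∀ h₁ : ℝ, 0 < h₁ → ∀ i₀ : Fin 3,
    Claim (m := 3) a R (fun J F A => ¬ Lb F i₀ ⌊h₁ * J⌋₊ A)

/-- Coarser precision. -/
theorem cn_mono {m J : ℕ} {F : Fam m J} {i₀ : Fin m} {l l' w : ℕ} {A : F.Ω → Prop} (h : l' ≤ l)
    (H : Cn F i₀ l w A) : Cn F i₀ l' w A := by
  obtain ⟨e, n, ζ, h1, h2⟩ := H
  have h3 : (1 : ℝ) / 2 ^ l ≤ 1 / 2 ^ l' :=
    one_div_le_one_div_of_le (by positivity) (pow_le_pow_right₀ (by norm_num) h)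
  exact ⟨e, n, ζ, fun ω hω j => (h1 ω hω j).trans h3, fun ω hω j => (h2 ω hω j).trans h3⟩

/-- The induction in the windows. -/
theorem s6_induct {J : ℕ} {F : Fam 3 J} {A : F.Ω → Prop} {i₀ : Fin 3} {u p₁ p₂ q ve : ℕ}
    (hp : p₁ ≤ p₂) (hve : ve ≤ p₁) (start : ∀ p ≤ p₂, Pnr F i₀ u p p A)
    (mono : ∀ v v', v ≤ v' → v' ≤ p₁ → Pnr F i₀ u p₂ v A → Pnr F i₀ u p₁ v' A)
    (epl : ∀ p j v, 1 ≤ j → p ≤ p₂ → v ≤ p → p ≤ j + v → j ≤ p → Cn F i₀ (j * u) (v * u) A →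
      Pnr F i₀ u p v A)
    (hno : ¬ Cn F i₀ (q * u) (ve * u) A)
    (alpha : ∀ vz v, v < vz → vz ≤ p₂ → v < p₁ → ve ≤ v → Pnr F i₀ u p₂ vz A →
      (∀ v', v ≤ v' → v' < vz → ¬ Cn F i₀ (q * u) (v' * u) A) →
      ¬ Cn F i₀ ((p₁ - v) * u) (v * u) A →
      (∀ v', v < v' → v' ≤ vz → v' ≤ p₁ → Pnr F i₀ u p₁ v' A) → Pnr F i₀ u p₁ v A)
    (beta : ∀ v, ve < v → q + v < p₂ → Cn F i₀ (q * u) (v * u) A →
      ¬ Cn F i₀ (q * u) ((v - 1) * u) A → Pnr F i₀ u p₂ v A) : Pnr F i₀ u p₁ ve A := by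
  classical
  -- the smallest window in regime beta
  have hex : ∃ v, ve ≤ v ∧ (Cn F i₀ (q * u) (v * u) A ∨ v = p₂) :=
    ⟨p₂, hve.trans hp, Or.inr rfl⟩
  obtain ⟨vz, hvz⟩ : ∃ vz, vz = Nat.find hex := ⟨_, rfl⟩
  have hs := Nat.find_spec hex
  rw [← hvz] at hs
  have hmin : ∀ v, v < vz → ve ≤ v → ¬ Cn F i₀ (q * u) (v * u) A := by
    intro v hv hvv h
    rw [hvz] at hv
    have := Nat.find_min hex hv
    push Not at this
    exact (this hvv).1 h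
  have hvzp : vz ≤ p₂ := by
    rw [hvz]
    exact Nat.find_min' hex ⟨hve.trans hp, Or.inr rfl⟩
  have hne : vz ≠ p₂ → ve < vz := by
    intro h
    rcases hs.2 with h1 | h1
    · refine lt_of_le_of_ne hs.1 fun h2 => hno ?_
      rw [h2]
      exact h1
    · exact absurd h1 h
  have hPz : Pnr F i₀ u p₂ vz A := by
    rcases Nat.lt_or_ge vz p₂ with hlt | hge
    · have hcn : Cn F i₀ (q * u) (vz * u) A := by
        rcases hs.2 with h | h
        · exact h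
        · omega
      by_cases hle : p₂ ≤ q + vz
      · exact epl p₂ (p₂ - vz) vz (by omega) le_rfl hvzp (by omega) (by omega)
          (cn_mono (Nat.mul_le_mul_right u (by omega)) hcn)
      · have hlt' : ve < vz := hne (by omega)
        exact beta vz hlt' (by omega) hcn (hmin (vz - 1) (by omega) (by omega))
    · have : vz = p₂ := le_antisymm hvzp hge
      rw [this]
      exact start p₂ le_rfl
  -- downward induction
  exact by
   have key : ∀ k, ∀ v, ve ≤ v → v ≤ p₁ → min vz p₁ ≤ v + k → Pnr F i₀ u p₁ v A := by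
     intro k
     induction k with
     | zero =>
       intro v _ hv hv1
       by_cases h : vz ≤ v
       · exact mono vz v h hv hPz
       · have : v = p₁ := by omega
         rw [this]
         exact start p₁ hp
     | succ k ih =>
       intro v hve' hvp hvk
       by_cases h : vz ≤ v
       · exact mono vz v h hvp hPz
       rcases Nat.lt_or_ge v p₁ with hlt | hge
       · by_cases hc : Cn F i₀ ((p₁ - v) * u) (v * u) A
         · exact epl p₁ (p₁ - v) v (by omega) hp hvp (by omega) (by omega) hc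
         · exact alpha vz v (by omega) hvzp hlt hve' hPz
             (fun v' h1 h2 => hmin v' h2 (hve'.trans h1)) hc
             fun v' h3 _ h5 => ih v' (by omega) h5 (by omega)
       · have : v = p₁ := le_antisymm hvp hge
         rw [this]
         exact start p₁ hp
   exact key (vz + p₁) ve le_rfl hve (by omega)

/-- A natural number in a given range. -/
theorem exists_nat_range {a b : ℝ} (ha : 0 ≤ a) (hab : a + 1 ≤ b) :
    ∃ n : ℕ, a ≤ n ∧ (n : ℝ) ≤ b :=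
  ⟨⌈a⌉₊, Nat.le_ceil _, (Nat.ceil_lt_add_one ha).le.trans hab⟩

/-- The indices: thicknesses `p₁`, `p₂`, margin `r`, last window `ve`. -/
theorem s6_scales {x₀ ω₀ x' c₁ y : ℝ} {N : ℕ} (hx₀0 : 0 < x₀) (hx₀1 : x₀ ≤ 1 / 4)
    (hω₀ : ω₀ = x' / 4) (hx'0 : 0 < x') (hx'1 : x' ≤ 1 / 4) (hc₁ : 0 < c₁) (hc₁1 : c₁ ≤ 1)
    (hy0 : 0 < y) (hNx₀ : 8 < (N : ℝ) * x₀) (hNx' : 8 < (N : ℝ) * x')
    (hNc : 8 < (N : ℝ) * (c₁ * x₀)) (hNy : 1 < (N : ℝ) * y) :
    ∃ p₁ p₂ r ve : ℕ, p₁ ≤ p₂ ∧ p₂ ≤ N ∧ x₀ / 2 * N ≤ (N : ℝ) - p₁ ∧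
      (N : ℝ) - p₁ ≤ x₀ * N ∧ (N : ℝ) - p₂ ≤ c₁ * ((N : ℝ) - p₁) ∧
      c₁ / 4 * ((N : ℝ) - p₁) ≤ (N : ℝ) - p₂ ∧ y * N ≤ r ∧ (r : ℝ) ≤ 2 * y * N ∧
      ω₀ * N + 1 ≤ ve ∧ (ve : ℝ) ≤ x' * N ∧ ve ≤ p₁ ∧ 1 ≤ ve := by
  have hN0 : (0 : ℝ) ≤ N := Nat.cast_nonneg N
  have hω₀0 : 0 < ω₀ := by rw [hω₀]; linarith only [hx'0]
  have g1 : x₀ * N ≤ 1 / 4 * N := mul_le_mul_of_nonneg_right hx₀1 hN0
  have g2 : x' * N ≤ 1 / 4 * N := mul_le_mul_of_nonneg_right hx'1 hN0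
  obtain ⟨n₁, a1, a2⟩ := exists_nat_range (a := x₀ / 2 * N) (b := x₀ * N) (by positivity)
    (by linarith only [hω₀, hx'1, hNx₀, hω₀0])
  have hn₁0 : (0 : ℝ) ≤ n₁ := Nat.cast_nonneg _
  obtain ⟨n₂, b1, b2⟩ := exists_nat_range (a := c₁ / 4 * n₁) (b := c₁ * n₁) (by positivity) (by
    have : c₁ * (x₀ / 2 * N) ≤ c₁ * n₁ := mul_le_mul_of_nonneg_left a1 hc₁.le
    have e1 : c₁ * (x₀ / 2 * N) = N * (c₁ * x₀) / 2 := by ring
    linarith only [hω₀, hx'1, hNc, hω₀0, this])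
  obtain ⟨r, r1, r2⟩ := exists_nat_range (a := y * N) (b := 2 * y * N) (by positivity)
    (by linarith only [hNy])
  obtain ⟨ve, s1, s2⟩ := exists_nat_range (a := ω₀ * N + 1) (b := x' * N) (by positivity) (by
    rw [hω₀]
    linarith only [hω₀, hx'1, hNx', hω₀0])
  have hn₁N : n₁ ≤ N := by
    have : (n₁ : ℝ) ≤ N := by linarith only [hω₀, hx'1, hNx₀, hω₀0, g1, a2]
    exact_mod_cast this
  have hn₂n₁ : n₂ ≤ n₁ := by
    have e1 : c₁ * n₁ ≤ 1 * n₁ := mul_le_mul_of_nonneg_right hc₁1 hn₁0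
    have : (n₂ : ℝ) ≤ n₁ := by linarith only [b2, e1]
    exact_mod_cast this
  have hp₁r : (N : ℝ) - ((N - n₁ : ℕ) : ℝ) = n₁ := by
    rw [Nat.cast_sub hn₁N]
    ring
  have hp₂r : (N : ℝ) - ((N - n₂ : ℕ) : ℝ) = n₂ := by
    rw [Nat.cast_sub (hn₂n₁.trans hn₁N)]
    ring
  refine ⟨N - n₁, N - n₂, r, ve, by omega, Nat.sub_le _ _, ?_, ?_, ?_, ?_, r1, r2, s1, s2, ?_, ?_⟩
  · rw [hp₁r]; exact a1
  · rw [hp₁r]; exact a2
  · rw [hp₁r, hp₂r]; exact b2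
  · rw [hp₁r, hp₂r]; exact b1
  · have : (ve : ℝ) ≤ ((N - n₁ : ℕ) : ℝ) := by linarith only [hω₀, hx'1, hNx₀, hω₀0, g1, g2, a2, s2, hp₁r]
    exact_mod_cast this
  · have h0 : 0 ≤ ω₀ * N := by positivity
    have : (1 : ℝ) ≤ ve := by linarith only [s1, h0]
    exact_mod_cast this

/-- **The case of one-dimensional fans from (NCW), (ALPHA), (BETA) and `K'(2)`.** -/
theorem s6_of_claims (h2 : KP 2) (hNCW : NCWStmt) (hAL : ALPHAStmt) (hBE : BETAStmt) :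
    S6Stmt := by
  classical
  intro a R ha hR hU h₁ hh₁ i₀
  obtain ⟨h₂, hh₂⟩ : ∃ h₂, h₂ = min h₁ 1 / 4 := ⟨_, rfl⟩
  have hh₂0 : 0 < h₂ := by
    rw [hh₂]
    have := lt_min hh₁ one_pos
    linarith only [this]
  have hh₂1 : 4 * h₂ ≤ h₁ := by
    rw [hh₂]
    have := min_le_left h₁ 1
    linarith only [this]
  have hh₂2 : 4 * h₂ ≤ 1 := by
    rw [hh₂]
    have := min_le_right h₁ 1
    linarith only [this]
  obtain ⟨xe, hxe, hxe1, hend⟩ := pend_thm h2 a R ha.le hR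
  obtain ⟨xn, hxn, N₁, hncw⟩ := hNCW 3 a R (by norm_num) ha hR hU h₂ hh₂0
  obtain ⟨x', hx'⟩ : ∃ x', x' = min (min xe xn) (1 / 4) := ⟨_, rfl⟩
  have hx'0 : 0 < x' := by rw [hx']; exact lt_min (lt_min hxe hxn) (by norm_num)
  have hx'e : x' ≤ xe := by rw [hx']; exact (min_le_left _ _).trans (min_le_left _ _)
  have hx'n : x' ≤ xn := by rw [hx']; exact (min_le_left _ _).trans (min_le_right _ _)
  have hx'1 : x' ≤ 1 / 4 := by rw [hx']; exact min_le_right _ _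
  obtain ⟨ω₀, hω₀⟩ : ∃ ω₀, ω₀ = x' / 4 := ⟨_, rfl⟩
  have hω₀0 : 0 < ω₀ := by rw [hω₀]; linarith only [hx'0]
  obtain ⟨xa, hxa, c₁, hc₁, hc₁1, hal⟩ := hAL a R ha hR hU h₂ ω₀ hh₂0 hω₀0
  obtain ⟨x₀, hx₀⟩ : ∃ x₀, x₀ = min xa (min xe (1 / 4)) := ⟨_, rfl⟩
  have hx₀0 : 0 < x₀ := by
    rw [hx₀]
    exact lt_min hxa (lt_min hxe (by norm_num))
  have hx₀a : x₀ ≤ xa := by rw [hx₀]; exact min_le_left _ _
  exact by
   have hx₀e : x₀ ≤ xe := by rw [hx₀]; exact (min_le_right _ _).trans (min_le_left _ _)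
   have hx₀1 : x₀ ≤ 1 / 4 := by rw [hx₀]; exact (min_le_right _ _).trans (min_le_right _ _)
   -- the thickness of the planks of regime beta
   obtain ⟨X₂, hX₂⟩ : ∃ X₂, X₂ = c₁ * x₀ / 8 := ⟨_, rfl⟩
   have hX₂0 : 0 < X₂ := by rw [hX₂]; positivity
   obtain ⟨yb, hyb, N₃, hbe⟩ := hBE a R ha hR hU h₂ ω₀ X₂ hh₂0 hω₀0 hX₂0
   obtain ⟨y, hy⟩ : ∃ y, y = min yb h₂ / 2 := ⟨_, rfl⟩
   have hmb : 0 < min yb h₂ := lt_min hyb hh₂0
   have hy0 : 0 < y := by rw [hy]; linarith only [hmb]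
   have hyb2 : 2 * y ≤ yb := by
     rw [hy]
     have := min_le_left yb h₂
     linarith only [this]
   have hyh2 : 2 * y ≤ h₂ := by
     rw [hy]
     have := min_le_right yb h₂
     linarith only [this]
   obtain ⟨N₂, hal⟩ := hal (x₀ / 2) y (by linarith only [hx₀0]) hy0
   obtain ⟨N₄, hN₄⟩ := exists_nat_gt (8 / x₀ + 8 / x' + 8 / h₂ + 8 / (c₁ * x₀) + 1 / y + 1)
   obtain ⟨N, hN⟩ : ∃ N, N = N₁ + N₂ + N₃ + N₄ := ⟨_, rfl⟩
   have hNr : 8 / x₀ + 8 / x' + 8 / h₂ + 8 / (c₁ * x₀) + 1 / y + 1 < N := by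
     refine hN₄.trans_le ?_
     have : N₄ ≤ N := by omega
     exact_mod_cast this
   have q1 : 0 < 8 / x₀ := by positivity
   have q2 : 0 < 8 / x' := by positivity
   have q3 : 0 < 8 / h₂ := by positivity
   have q4 : 0 < 8 / (c₁ * x₀) := by positivity
   have q5 : 0 < 1 / y := by positivity
   have hNx₀ : 8 < (N : ℝ) * x₀ := by
     have : 8 / x₀ < N := by linarith only [hNr, q2, q3, q4, q5]
     rwa [div_lt_iff₀ hx₀0] at this
   exact by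
    have hNx' : 8 < (N : ℝ) * x' := by
      have : 8 / x' < N := by linarith only [hNr, q1, q3, q4, q5]
      rwa [div_lt_iff₀ hx'0] at this
    have hNh : 8 < (N : ℝ) * h₂ := by
      have : 8 / h₂ < N := by linarith only [hNr, q1, q2, q4, q5]
      rwa [div_lt_iff₀ hh₂0] at this
    have hNc : 8 < (N : ℝ) * (c₁ * x₀) := by
      have : 8 / (c₁ * x₀) < N := by linarith only [hNr, q1, q2, q3, q5]
      rwa [div_lt_iff₀ (by positivity)] at this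
    have hNy : 1 < (N : ℝ) * y := by
      have : 1 / y < N := by linarith only [hNr, q1, q2, q3, q4]
      rwa [div_lt_iff₀ hy0] at this
    have hNpos : (0 : ℝ) < N := by linarith only [hNr, q1, q2, q3, q4, q5]
    have hN0 : 0 < N := by exact_mod_cast hNpos
    obtain ⟨p₁, p₂, r, ve, hp₁₂, hp₂N, a1, a2, b2, b1, r1, r2, s1, s2, hvep, hve1⟩ :=
      s6_scales hx₀0 hx₀1 hω₀ hx'0 hx'1 hc₁ hc₁1 hy0 hNx₀ hNx' hNc hNy
    have hX₂n : X₂ * N ≤ (N : ℝ) - p₂ := by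
      have e1 : c₁ / 4 * (x₀ / 2 * N) ≤ c₁ / 4 * ((N : ℝ) - p₁) :=
        mul_le_mul_of_nonneg_left a1 (by positivity)
      have e2 : X₂ * N = c₁ / 4 * (x₀ / 2 * N) := by rw [hX₂]; ring
      linarith only [b1, e1, e2]
    -- the claims
    have c0 : Claim (m := 3) a R (fun J F A => ∀ i : Fin (N + 1), ((i : ℕ) ≤ p₂) →
        Pnr F i₀ (J / N) i i A) :=
      Claim.finite fun i => Claim.cnd fun _ => start_claim a R i₀ N i (by omega)
    have c1 : Claim (m := 3) a R (fun J F A => ∀ i : Fin (N + 1) × Fin (N + 1),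
        ((i.1 : ℕ) ≤ i.2 ∧ (i.2 : ℕ) ≤ p₁) →
        (Pnr F i₀ (J / N) p₂ i.1 A → Pnr F i₀ (J / N) p₁ i.2 A)) :=
      Claim.finite fun i => Claim.cnd fun k =>
        mono_claim a R i₀ N p₂ p₁ i.1 i.2 hp₂N hp₁₂ k.1 k.2
    exact by
     have c2 : Claim (m := 3) a R (fun J F A => ∀ i : Fin (N + 1) × Fin (N + 1) × Fin (N + 1),
         (1 ≤ (i.2.1 : ℕ) ∧ (i.1 : ℕ) ≤ p₂ ∧ (i.2.2 : ℕ) ≤ i.1 ∧
           (i.1 : ℕ) ≤ (i.2.1 : ℕ) + i.2.2) → (Lb F i₀ ⌊h₂ * J⌋₊ A →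
         Cn F i₀ (i.2.1 * (J / N)) (i.2.2 * (J / N)) A → Pnr F i₀ (J / N) i.1 i.2.2 A)) :=
       Claim.finite fun i => Claim.cnd fun k =>
         epl_claim ha.le hR hU hh₂0 i₀ N i.2.1 i.2.2 i.1 k.1 (by omega) k.2.2.1 k.2.2.2
     have c3 : Claim (m := 3) a R (fun J F A => ∀ i : Fin (N + 1), (h₂ * N ≤ ((i : ℕ) : ℝ)) →
         (Lb F i₀ ⌊h₂ * J⌋₊ A → Ln F i₀ (i * (J / N)) A →
           Cn F i₀ (i * (J / N)) (ve * (J / N)) A → False)) :=
       Claim.finite fun i => Claim.cnd fun k => hncw N (by omega) i₀ i ve (by omega) k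
         (s2.trans (mul_le_mul_of_nonneg_right hx'n hNpos.le))
     have c4 : Claim (m := 3) a R (fun J F A => ∀ i : Fin (N + 1) × Fin (N + 1) × Fin (N + 1),
         (h₂ * N ≤ ((i.1 : ℕ) : ℝ) ∧ (i.1 : ℕ) + r ≤ N ∧ (i.2.2 : ℕ) < i.2.1 ∧
           (i.2.1 : ℕ) ≤ p₂ ∧ (i.2.2 : ℕ) < p₁ ∧ ω₀ * N ≤ ((i.2.2 : ℕ) : ℝ)) →
         (Lb F i₀ ⌊h₂ * J⌋₊ A → Ln F i₀ ((i.1 + r) * (J / N)) A →
         Pnr F i₀ (J / N) p₂ i.2.1 A →
         (∀ v', (i.2.2 : ℕ) ≤ v' → v' < (i.2.1 : ℕ) →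
           ¬ Cn F i₀ (i.1 * (J / N)) (v' * (J / N)) A) →
         ¬ Cn F i₀ ((p₁ - i.2.2) * (J / N)) (i.2.2 * (J / N)) A →
         (∀ v', (i.2.2 : ℕ) < v' → v' ≤ (i.2.1 : ℕ) → v' ≤ p₁ → Pnr F i₀ (J / N) p₁ v' A) →
           Pnr F i₀ (J / N) p₁ i.2.2 A)) :=
       Claim.finite fun i => Claim.cnd fun k => hal N (by omega) i₀ p₁ p₂ i.1 r i.2.1 i.2.2 hp₁₂
         hp₂N a1 (a2.trans (mul_le_mul_of_nonneg_right hx₀a hNpos.le)) b2 b1 k.1 k.2.1 r1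
         k.2.2.1 k.2.2.2.1 k.2.2.2.2.1 k.2.2.2.2.2
     have c5 : Claim (m := 3) a R (fun J F A => ∀ i : Fin (N + 1) × Fin (N + 1),
         (h₂ * N ≤ ((i.1 : ℕ) : ℝ) ∧ (i.1 : ℕ) + r ≤ N ∧ (i.1 : ℕ) + i.2 < p₂ ∧ 1 ≤ (i.2 : ℕ) ∧
           ω₀ * N ≤ ((i.2 : ℕ) : ℝ) - 1) →
         (Lb F i₀ ⌊h₂ * J⌋₊ A → Ln F i₀ ((i.1 + r) * (J / N)) A →
         ((i.1 : ℕ) + r < N → ¬ Ln F i₀ ((i.1 + r + 1) * (J / N)) A) →
         Cn F i₀ (i.1 * (J / N)) (i.2 * (J / N)) A →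
         ¬ Cn F i₀ (i.1 * (J / N)) ((i.2 - 1) * (J / N)) A → Pnr F i₀ (J / N) p₂ i.2 A)) :=
       Claim.finite fun i => Claim.cnd fun k => hbe N (by omega) i₀ p₂ i.1 r i.2 hp₂N
         hX₂n k.1 k.2.1
         (r2.trans (mul_le_mul_of_nonneg_right hyb2 hNpos.le)) k.2.2.1 k.2.2.2.1 k.2.2.2.2
     exact by
      have c6 := hend N hN0 i₀ p₁ ve (hp₁₂.trans hp₂N) (by
        have : (N : ℝ) - p₁ ≤ xe * N := a2.trans (mul_le_mul_of_nonneg_right hx₀e hNpos.le)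
        linarith only [this]) (s2.trans (mul_le_mul_of_nonneg_right hx'e hNpos.le))
      refine Claim.mono 0 ?_ ((((c0.and c1).and (c2.and c3)).and (c4.and c5)).and c6)
      rintro J - F A ⟨⟨⟨⟨d0, d1⟩, d2, d3⟩, d4, d5⟩, d6⟩ hLb
      have hJ0 : (0 : ℝ) ≤ J := Nat.cast_nonneg J
      obtain ⟨u, hu⟩ : ∃ u, u = J / N := ⟨_, rfl⟩
      have hu1 : (N : ℝ) * u ≤ J := by rw [hu]; exact_mod_cast Nat.mul_div_le J N
      have hu0 : (0 : ℝ) ≤ u := Nat.cast_nonneg u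
      rw [← hu] at d0 d1 d2 d3 d4 d5 d6
      have hLb2 : Lb F i₀ ⌊h₂ * J⌋₊ A := by
        refine hLb.mono (Nat.floor_le_floor (mul_le_mul_of_nonneg_right ?_ hJ0))
        linarith only [hh₁, hh₂1]
      -- the precision of straightness
      obtain ⟨j₀, j1, j2⟩ := exists_nat_range (a := 2 * h₂ * N) (b := 4 * h₂ * N) (by positivity)
        (by linarith only [hx'1, hω₀, hω₀0, hNh])
      have hjN : j₀ ≤ N := by
        have h3 : 4 * h₂ * N ≤ 1 * N := mul_le_mul_of_nonneg_right hh₂2 hNpos.le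
        have : (j₀ : ℝ) ≤ N := by linarith only [j2, h3]
        exact_mod_cast this
      have hlnj : Ln F i₀ (j₀ * u) A := by
        refine hLb.ln.mono (Nat.le_floor ?_)
        push_cast
        calc (j₀ : ℝ) * u ≤ (4 * h₂ * N) * u := mul_le_mul_of_nonneg_right j2 hu0
          _ = 4 * h₂ * (N * u) := by ring
          _ ≤ 4 * h₂ * J := mul_le_mul_of_nonneg_left hu1 (by positivity)
          _ ≤ h₁ * J := mul_le_mul_of_nonneg_right hh₂1 hJ0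
      obtain ⟨s, hs⟩ : ∃ s, s = Nat.findGreatest (fun j => Ln F i₀ (j * u) A) N := ⟨_, rfl⟩
      have hsN : s ≤ N := by rw [hs]; exact Nat.findGreatest_le N
      have hsj : j₀ ≤ s := by
        rw [hs]
        exact Nat.le_findGreatest hjN hlnj
      exact by
       have hsl : Ln F i₀ (s * u) A := by
         rw [hs]
         exact Nat.findGreatest_spec (P := fun j => Ln F i₀ (j * u) A) hjN hlnj
       have hs1 : s < N → ¬ Ln F i₀ ((s + 1) * u) A := by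
         intro h
         refine Nat.findGreatest_is_greatest (P := fun j => Ln F i₀ (j * u) A) (n := N) ?_ (by omega)
         rw [← hs]
         omega
       have hrj : (r : ℝ) ≤ h₂ * N := r2.trans (mul_le_mul_of_nonneg_right hyh2 hNpos.le)
       have hrs : r ≤ s := by
         have : (r : ℝ) ≤ s := by
           have h3 : (j₀ : ℝ) ≤ s := by exact_mod_cast hsj
           have h4 : 0 ≤ h₂ * N := by positivity
           linarith only [hx'1, hω₀, hω₀0, hNh, j1, hrj, h3]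
         exact_mod_cast this
       obtain ⟨q, hq⟩ : ∃ q, q = s - r := ⟨_, rfl⟩
       have hqr : q + r = s := by omega
       have hqN : h₂ * N ≤ (q : ℝ) := by
         have h3 : (j₀ : ℝ) ≤ s := by exact_mod_cast hsj
         have h4 : (q : ℝ) + r = s := by exact_mod_cast hqr
         linarith only [j1, hrj, h3, h4]
       have hln' : Ln F i₀ ((q + r) * u) A := by rw [hqr]; exact hsl
       have hln1' : q + r < N → ¬ Ln F i₀ ((q + r + 1) * u) A := by rw [hqr]; exact hs1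
       have hlnq : Ln F i₀ (q * u) A :=
         Ln.mono (Nat.mul_le_mul_right u (by omega)) hln'
       have hno : ¬ Cn F i₀ (q * u) (ve * u) A := fun h =>
         d3 ⟨q, by omega⟩ hqN hLb2 hlnq h
       refine d6 (s6_induct (F := F) (A := A) (i₀ := i₀) (u := u) (p₁ := p₁) (p₂ := p₂) (q := q)
         (ve := ve) hp₁₂ hvep (fun p hp => d0 ⟨p, by omega⟩ hp)
         (fun v v' k1 k2 k3 => d1 (⟨v, by omega⟩, ⟨v', by omega⟩) ⟨k1, k2⟩ k3)
         (fun p j v k1 k2 k3 k4 k5 k6 => d2 (⟨p, by omega⟩, ⟨j, by omega⟩, ⟨v, by omega⟩)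
           ⟨k1, k2, k3, k4⟩ hLb2 k6)
         hno
         (fun vz v k1 k2 k3 k4 k5 k6 k7 k8 => d4 (⟨q, by omega⟩, ⟨vz, by omega⟩, ⟨v, by omega⟩)
           ⟨hqN, by
             change q + r ≤ N
             omega, k1, k2, k3, by
             change ω₀ * N ≤ (v : ℝ)
             have : (ve : ℝ) ≤ v := by exact_mod_cast k4
             linarith only [hx'1, hω₀, hω₀0, s1, this]⟩ hLb2 hln' k5 k6 k7 k8)
         (fun v k1 k2 k3 k4 => d5 (⟨q, by omega⟩, ⟨v, by omega⟩) ⟨hqN, by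
           change q + r ≤ N
           omega, k2, by
           change 1 ≤ v
           omega, by
           change ω₀ * N ≤ (v : ℝ) - 1
           have : (ve : ℝ) ≤ v := by exact_mod_cast k1.le
           linarith only [s1, this]⟩ hLb2 hln' hln1' k3 k4))

end Pool.S6K
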