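import Pool.Agent.H80.KS6.Skel
import Pool.Agent.H26.KAZ.NCVcl

/-!
# (NCW): no constant direction on small windows
-/

set_option autoImplicit false

namespace Pool.S6K

open Finset Real
open Pool.Agent.H49.Ent Pool.Agent.H32.Dense Pool.STK Pool.KA Pool.KSAT Pool.K2S Pool.KA.TRC

variable {m : ℕ}

/-- Steep slopes of a fine frame are possible at points with a thin fan only. -/
theorem steep_ball2 {Ω U : Type} {pt : Ω → U} {d : Ω → Fin m → ℝ} {A : Ω → Prop}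
    {i₀ : Fin m} {r rb : ℝ} {e n eb nb : U → Fin m → ℝ}
    (hb : IsFrame i₀ rb pt d A eb nb) (h : OnL i₀ r pt d A e n) :
    Ball (2 * r + 4 * rb) pt d (fun ω => A ω ∧ ∃ j, 2 < |e (pt ω) j|) := by
  classical
  have hex : ∀ y : U, ∃ v : Fin m → ℝ, ∀ ω, A ω → (∃ j, 2 < |e (pt ω) j|) → pt ω = y →
      ∀ j, |d ω j - v j| ≤ 2 * r + 4 * rb := by
    intro y
    by_cases hy : ∃ ω, A ω ∧ (∃ j, 2 < |e (pt ω) j|) ∧ pt ω = y
    · obtain ⟨ω₀, h0, -, h00⟩ := hy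
      refine ⟨d ω₀, fun ω hω hj hpt k => ?_⟩
      obtain ⟨j, e1⟩ := hj
      have e2 := hb.bound ω hω j
      have e3 : 1 ≤ |e (pt ω) j - eb (pt ω) j| := by
        have := abs_sub_abs_le_abs_sub (e (pt ω) j) (eb (pt ω) j)
        linarith
      have a1 := h ω hω j
      have a2 := h ω₀ h0 j
      have b1 := hb.line ω hω j
      have b2 := hb.line ω₀ h0 j
      have c1 := hb.line ω hω k
      have c2 := hb.line ω₀ h0 k
      have c3 := hb.bound ω hω k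
      rw [h00, ← hpt] at a2 b2 c2
      obtain ⟨Δ, hΔ⟩ : ∃ Δ, Δ = d ω i₀ - d ω₀ i₀ := ⟨_, rfl⟩
      have k1 : |(e (pt ω) j - eb (pt ω) j) * Δ| ≤ 2 * r + 2 * rb := by
        rw [hΔ]
        rw [abs_le] at a1 a2 b1 b2 ⊢
        constructor <;> nlinarith [a1.1, a1.2, a2.1, a2.2, b1.1, b1.2, b2.1, b2.2]
      have k2 : |Δ| ≤ 2 * r + 2 * rb := by
        rw [abs_mul] at k1
        have := abs_nonneg Δ
        nlinarith
      have k3 : |eb (pt ω) k * Δ| ≤ 2 * r + 2 * rb := by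
        rw [abs_mul]
        have h1 := abs_nonneg Δ
        have h2 := abs_nonneg (eb (pt ω) k)
        nlinarith
      rw [hΔ] at k3
      rw [abs_le] at c1 c2 k3 ⊢
      constructor <;> nlinarith [c1.1, c1.2, c2.1, c2.2, k3.1, k3.2]
    · exact ⟨0, fun ω hω hj hpt => absurd ⟨ω, hω, hj, hpt⟩ hy⟩
  choose v hv using hex
  exact ⟨v, fun ω hω => hv _ ω hω.1 hω.2 rfl⟩

/-- **(NCW)** -/
theorem ncw_thm : NCWStmt := by
  classical
  intro m a R _ ha hR hU h₁ hh₁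
  obtain ⟨C, hC, hncv⟩ := Pool.KAZ.ncv_thm m a R ha.le hR hU
  obtain ⟨x, hx⟩ : ∃ x, x = min (min h₁ 1 / (8 * C)) 1 := ⟨_, rfl⟩
  have hm1 : 0 < min h₁ 1 := lt_min hh₁ one_pos
  have hx0 : 0 < x := by rw [hx]; exact lt_min (by positivity) one_pos
  have hx1 : x ≤ 1 := by rw [hx]; exact min_le_right _ _
  have hCx : C * x ≤ h₁ / 8 := by
    have h0 : C * x ≤ C * (min h₁ 1 / (8 * C)) := by
      rw [hx]
      exact mul_le_mul_of_nonneg_left (min_le_left _ _) hC.le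
    have : C * (min h₁ 1 / (8 * C)) = min h₁ 1 / 8 := by field_simp
    rw [this] at h0
    have := min_le_left h₁ 1
    linarith
  refine ⟨x, hx0, 1, fun N hN i₀ j v hj hj2 hv => ?_⟩
  have hNpos : (0 : ℝ) < N := by exact_mod_cast hN
  have hN0 : 0 < N := hN
  obtain ⟨τ₀, hτ₀, Jn, hncv⟩ := hncv x hx0
  obtain ⟨xb, hxb⟩ : ∃ xb, xb = min h₁ 1 / 32 := ⟨_, rfl⟩
  have hxb0 : 0 < xb := by rw [hxb]; linarith
  have hxb1 : 32 * xb ≤ h₁ := by
    rw [hxb]
    have := min_le_left h₁ 1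
    linarith
  have hxb2 : 32 * xb ≤ 1 := by
    rw [hxb]
    have := min_le_right h₁ 1
    linarith
  obtain ⟨τb, hτb, Jb, hball⟩ := ball_claim (m := m) ha.le hR hU hxb0
  refine Claim.one ⟨1, fun J F _ => Ball (1 / 2 ^ (⌊xb * J⌋₊ + 1)) (Fam.pt F) F.d,
    fun _ _ _ => Ball.hered _ _ _⟩ fun κ hκ => ?_
  obtain ⟨J₃, hJ₃⟩ := exp_small hκ (show (1 : ℝ) ≤ 2 by norm_num)
  obtain ⟨J₂, hJ₂⟩ := exists_nat_gt (8 / xb + 4 * N + 2 * Real.log 2 / τ₀)
  refine ⟨min τb (τ₀ / 2), lt_min hτb (by linarith), max (max J₃ Jn) (max J₂ Jb),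
    fun J hJ F A hS hSb hLb _ hCn => ?_⟩
  have k2 : J ≥ J₃ := (le_max_left _ _).trans ((le_max_left _ _).trans hJ)
  have k1 : J ≥ Jn := (le_max_right _ _).trans ((le_max_left _ _).trans hJ)
  have k3 : J ≥ J₂ := (le_max_left _ _).trans ((le_max_right _ _).trans hJ)
  have k4 : J ≥ Jb := (le_max_right _ _).trans ((le_max_right _ _).trans hJ)
  have hl2 : 0 < Real.log 2 := Real.log_pos (by norm_num)
  have hJr : 8 / xb + 4 * N + 2 * Real.log 2 / τ₀ < J := hJ₂.trans_le (by exact_mod_cast k3)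
  have q3 : 0 < 8 / xb := by positivity
  have q4 : 0 < 2 * Real.log 2 / τ₀ := by positivity
  have hJ0 : (0 : ℝ) < J := by linarith
  have r3 : 8 ≤ xb * J := by
    have : 8 / xb < J := by linarith
    rw [div_lt_iff₀ hxb0] at this
    linarith
  have r4 : 2 * Real.log 2 ≤ τ₀ * J := by
    have : 2 * Real.log 2 / τ₀ < J := by linarith
    rw [div_lt_iff₀ hτ₀] at this
    linarith
  obtain ⟨u, hu⟩ : ∃ u, u = J / N := ⟨_, rfl⟩
  have hu1 : (N : ℝ) * u ≤ J := by rw [hu]; exact_mod_cast Nat.mul_div_le J N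
  have hu2 : (J : ℝ) < N * (u + 1) := by rw [hu]; exact_mod_cast Nat.lt_mul_div_succ J hN0
  have hu0 : (0 : ℝ) ≤ u := Nat.cast_nonneg u
  rw [← hu] at hCn
  obtain ⟨l, hl⟩ : ∃ l, l = j * u := ⟨_, rfl⟩
  obtain ⟨w, hw⟩ : ∃ w, w = v * u := ⟨_, rfl⟩
  rw [← hl, ← hw] at hCn
  have hlr : (l : ℝ) = j * u := by rw [hl]; push_cast; ring
  have hwr : (w : ℝ) = v * u := by rw [hw]; push_cast; ring
  have hjN : (j : ℝ) ≤ N := by exact_mod_cast hj
  have hh₁1 : h₁ ≤ 1 := by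
    have : h₁ * N ≤ 1 * N := by linarith
    exact le_of_mul_le_mul_right this hNpos
  have hlJ : l ≤ J := by
    have : (l : ℝ) ≤ J := by
      rw [hlr]
      have : (j : ℝ) * u ≤ N * u := mul_le_mul_of_nonneg_right hjN hu0
      linarith
    exact_mod_cast this
  have hl1 : h₁ * (J - N) ≤ l := by
    rw [hlr]
    have e1 : h₁ * N * u ≤ j * u := mul_le_mul_of_nonneg_right hj2 hu0
    have e2 : h₁ * (J - N) ≤ h₁ * (N * u) :=
      mul_le_mul_of_nonneg_left (by linarith) hh₁.le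
    linarith
  have hl2' : h₁ * J * (3 / 4) ≤ l := by
    have : h₁ * J * (3 / 4) ≤ h₁ * (J - N) := by nlinarith
    linarith
  have hwx : (w : ℝ) ≤ x * J := by
    rw [hwr]
    calc (v : ℝ) * u ≤ x * N * u := mul_le_mul_of_nonneg_right hv hu0
      _ = x * (N * u) := by ring
      _ ≤ _ := mul_le_mul_of_nonneg_left hu1 hx0.le
  have hq1 : (⌊xb * J⌋₊ : ℝ) ≤ xb * J := Nat.floor_le (by positivity)
  have hju : ⌊xb * J⌋₊ + 1 + 3 ≤ l := by
    have h1 : ((⌊xb * J⌋₊ + 1 + 3 : ℕ) : ℝ) ≤ l := by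
      push_cast
      have e1 : 32 * xb * J ≤ h₁ * J := mul_le_mul_of_nonneg_right hxb1 hJ0.le
      linarith
    exact_mod_cast h1
  obtain ⟨eb, nb, hb⟩ := hLb
  obtain ⟨e, n, ζ, h1, h2⟩ := hCn
  obtain ⟨Bg, hBg⟩ : ∃ Bg : F.Ω → Prop, Bg = fun ω => A ω ∧ ∃ k, 2 < |e (Fam.pt F ω) k| :=
    ⟨_, rfl⟩
  have hsteep := steep_ball2 hb h1
  rw [← hBg] at hsteep
  have hballB : Ball (1 / 2 ^ (⌊xb * J⌋₊ + 1)) (Fam.pt F) F.d Bg := by
    obtain ⟨vv, hvv⟩ := hsteep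
    refine ⟨vv, fun ω hω k => (hvv ω hω k).trans (ball_arith hju ?_)⟩
    refine Nat.le_floor ?_
    push_cast
    have : 32 * (xb * J) ≤ h₁ * J := by
      calc 32 * (xb * J) = 32 * xb * J := by ring
        _ ≤ h₁ * J := mul_le_mul_of_nonneg_right hxb1 hJ0.le
    linarith
  have hqJ : ⌊xb * J⌋₊ + 1 ≤ J := by omega
  have hnb : ¬ Ball (1 / 2 ^ (⌊xb * J⌋₊ + 1)) (Fam.pt F) F.d A :=
    hball J k4 F A (hS.mono (min_le_left _ _)) (⌊xb * J⌋₊ + 1) hqJ (by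
      push_cast
      exact (Nat.lt_floor_add_one _).le)
  have hBgs : Pe F.p Bg < Real.exp (-(κ * J)) * Pe F.p A := by
    by_contra hcon
    push Not at hcon
    refine hnb ((hSb 0).of_sub (B := Bg) (fun ω hω => ?_) hcon hballB)
    rw [hBg] at hω
    exact hω.1
  obtain ⟨A', hA'⟩ : ∃ A' : F.Ω → Prop, A' = fun ω => A ω ∧ ¬ Bg ω := ⟨_, rfl⟩
  have hPA0 := Pe_nonneg F.isLaw A
  have hPA' : Pe F.p A ≤ 2 * Pe F.p A' := by
    have d0 : Pe F.p (fun ω => A ω ∧ Bg ω) ≤ Pe F.p A / 2 := by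
      have b1 : Pe F.p (fun ω => A ω ∧ Bg ω) ≤ Pe F.p Bg := Pe_mono F.isLaw fun ω hω => hω.2
      have b2 : Real.exp (-(κ * J)) * Pe F.p A ≤ 1 / 2 * Pe F.p A :=
        mul_le_mul_of_nonneg_right (hJ₃ J k2) hPA0
      linarith
    have d1 := Pe_diff d0
    have e3 : Real.exp (-Real.log 2) = 1 / 2 := by
      rw [Real.exp_neg, Real.exp_log (by norm_num)]
      norm_num
    rw [e3] at d1
    rw [hA']
    linarith
  have hS' : Fam.Stt F a R τ₀ A' := by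
    have g1 := hS.mono (min_le_right τb (τ₀ / 2))
    have g2 := g1.mono (show τ₀ / 2 ≤ τ₀ by linarith)
    refine ⟨g2.1, g2.2.1, g2.2.2.1, ?_⟩
    have g3 := g1.2.2.2
    have g4 : Real.exp (-(τ₀ * J)) ≤ 1 / 2 * Real.exp (-(τ₀ / 2 * J)) := by
      have : (1 / 2 : ℝ) = Real.exp (-Real.log 2) := by
        rw [Real.exp_neg, Real.exp_log (by norm_num)]
        norm_num
      rw [this, ← Real.exp_add]
      exact Real.exp_le_exp.2 (by linarith)
    linarith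
  have hin : ∀ ω, A' ω → A ω ∧ ∀ k, |e (Fam.pt F ω) k| ≤ 2 := by
    intro ω hω
    rw [hA'] at hω
    refine ⟨hω.1, fun k => ?_⟩
    by_contra hk
    push Not at hk
    refine hω.2 ?_
    rw [hBg]
    exact ⟨hω.1, k, hk⟩
  have hwJ : w ≤ J := by
    have h9 : x * J ≤ 1 * J := mul_le_mul_of_nonneg_right hx1 hJ0.le
    have h10 : (w : ℝ) ≤ J := by linarith
    exact_mod_cast h10
  have hfin := hncv J k1 F A' hS' w l i₀ e n (fun ω => ζ (slam F w ω)) hwJ hlJ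
    (fun ω hω => h1 ω (hin ω hω).1) (fun ω hω => (hin ω hω).2)
    (fun ω ω' _ _ _ _ f1 f2 f3 => by
      have : slam F w ω = slam F w ω' := by
        unfold slam
        rw [f1, f2, f3]
      exact congrArg ζ this)
    (fun ω hω => h2 ω (hin ω hω).1)
  have e5 : C * (w + x * J) ≤ C * (x * J + x * J) :=
    mul_le_mul_of_nonneg_left (by linarith) hC.le
  have e6 : C * (x * J + x * J) = 2 * (C * x) * J := by ring
  have e7 : 2 * (C * x) * J ≤ h₁ / 4 * J := mul_le_mul_of_nonneg_right (by linarith) hJ0.le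
  have e8 : 0 < h₁ * J := by positivity
  linarith

/-- **The case of one-dimensional fans from (ALPHA), (BETA) and `K'(2)`.** -/
theorem s6_of_two (h2 : KP 2) (hAL : ALPHAStmt) (hBE : BETAStmt) : S6Stmt :=
  s6_of_claims h2 ncw_thm hAL hBE

end Pool.S6K
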